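import Pool.Agent.KS6_5.TB.TypeB

/-!
# Open subsets of the affine space of dimension three: the cylinders are isomorphic
-/

set_option autoImplicit false

namespace Pool.Agent.KS6_5.TB

open Polynomial Pool.Agent.H868R3

universe u v

variable {K : Type u} [Field K] {N : ℕ}

noncomputable section

theorem Capply {f : K[X]} (g : K[X]) : (C (aeval (xA N f) g) : (OpenRing N f)[X]) =
    aeval (C (xA N f)) g :=
  (aeval_algHom_apply ((CAlgHom : OpenRing N f →ₐ[OpenRing N f]
        (OpenRing N f)[X]).restrictScalars K) _ _).symm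

/-- the maps between the cylinders -/
theorem exists_cyl (f g h k : K[X]) (hgh : g * h = f + (X ^ N - 1) * k)
    (u₀ w₀ : (OpenRing N f)[X]) : ∃ Φ : (OpenRing N g)[X] →ₐ[K] (OpenRing N f)[X],
      Φ (C (xA N g)) = C (xA N f) ∧
      Φ (C (zA N g)) = C (aeval (xA N f) h) * C (zA N f) + C (xA N f ^ N - 1) * u₀ ∧
      Φ (C (hA N g)) = C (hA N f) ∧ Φ X = w₀ := by
  set x : (OpenRing N f)[X] := C (xA N f) with hx
  set y : (OpenRing N f)[X] := C (yA N f) with hy
  set z : (OpenRing N f)[X] := C (zA N f) with hz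
  set q : (OpenRing N f)[X] := aeval x k * z + aeval x g * u₀ with hq
  have hG : aeval x g * aeval x h = aeval x f + (x ^ N - 1) * aeval x k := by
    rw [← map_mul, hgh, map_add, map_mul, map_sub, map_pow, map_one, aeval_X]
  have hC : (C (hA N f) : (OpenRing N f)[X]) = 1 + (x ^ N - 1) * y + (aeval x f * z) ^ 2 := by
    rw [hA_eq, C_add, C_add, C_1, C_mul, C_sub, C_pow, C_1, C_pow, C_mul, Capply]
  have hkey : 1 + (x ^ N - 1) * (y - q * (2 * (aeval x f * z) + (x ^ N - 1) * q)) +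
      (aeval x g * (aeval x h * z + (x ^ N - 1) * u₀)) ^ 2 = C (hA N f) := by
    rw [hC]
    have h1 : aeval x g * (aeval x h * z + (x ^ N - 1) * u₀) =
        aeval x f * z + (x ^ N - 1) * q := by
      rw [hq]
      linear_combination z * hG
    rw [h1]
    ring
  have hxu : IsUnit x := isUnit_xA.map C
  have huu : IsUnit (1 + (x ^ N - 1) * (y - q * (2 * (aeval x f * z) + (x ^ N - 1) * q)) +
      (aeval x g * (aeval x h * z + (x ^ N - 1) * u₀)) ^ 2) := by
    rw [hkey]
    exact isUnit_hA.map C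
  let φ : OpenRing N g →ₐ[K] (OpenRing N f)[X] :=
    pt (y - q * (2 * (aeval x f * z) + (x ^ N - 1) * q)) x
      (aeval x h * z + (x ^ N - 1) * u₀) hxu huu
  refine ⟨eval₂AlgHom φ w₀ (fun a => Commute.all _ _), ?_, ?_, ?_, ?_⟩
  · change eval₂ (φ : OpenRing N g →+* (OpenRing N f)[X]) w₀ (C (xA N g)) = _
    rw [eval₂_C]
    exact pt_x _ _ _ hxu huu
  · change eval₂ (φ : OpenRing N g →+* (OpenRing N f)[X]) w₀ (C (zA N g)) = _
    rw [eval₂_C, Capply, C_sub, C_pow, C_1]
    exact pt_z _ _ _ hxu huu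
  · change eval₂ (φ : OpenRing N g →+* (OpenRing N f)[X]) w₀ (C (hA N g)) = _
    rw [eval₂_C]
    exact (pt_h _ _ _ hxu huu).trans hkey
  · change eval₂ (φ : OpenRing N g →+* (OpenRing N f)[X]) w₀ X = _
    rw [eval₂_X]

theorem xA_pow_ne_zero {f : K[X]} (hN : N ≠ 0) : xA N f ^ N - 1 ≠ 0 := by
  intro h
  have h2 : em N f (MvPolynomial.X 1 ^ N - 1) = em N f 0 := by
    rw [map_sub, map_pow, map_one, map_zero]
    exact h
  exact xpow_ne_zero hN (em_injective h2)

theorem cyl_comp (hN : N ≠ 0) (f g h l m : K[X]) (hlh : l * h = 1 + (X ^ N - 1) * m)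
    (Φ : (OpenRing N g)[X] →ₐ[K] (OpenRing N f)[X])
    (Ψ : (OpenRing N f)[X] →ₐ[K] (OpenRing N g)[X]) (s : K) (hs : s ^ 2 = 1)
    (h1 : Φ (C (xA N g)) = C (xA N f))
    (h2 : Φ (C (zA N g)) = C (aeval (xA N f) h) * C (zA N f) + C (xA N f ^ N - 1) * (s • X))
    (h3 : Φ (C (hA N g)) = C (hA N f))
    (h4 : Φ X = s • (C (aeval (xA N f) m) * C (zA N f)) + C (aeval (xA N f) l) * X)
    (h5 : Ψ (C (xA N f)) = C (xA N g))
    (h6 : Ψ (C (zA N f)) = C (aeval (xA N g) l) * C (zA N g) + C (xA N g ^ N - 1) * ((-s) • X))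
    (h7 : Ψ (C (hA N f)) = C (hA N g))
    (h8 : Ψ X = (-s) • (C (aeval (xA N g) m) * C (zA N g)) + C (aeval (xA N g) h) * X) :
    Ψ.comp Φ = AlgHom.id K _ := by
  have hae : ∀ r : K[X], Ψ (C (aeval (xA N f) r)) = C (aeval (xA N g) r) := by
    intro r
    rw [Capply, ← aeval_algHom_apply, h5, Capply]
  have hpw : Ψ (C (xA N f ^ N - 1)) = C (xA N g ^ N - 1) := by
    rw [C_sub, C_pow, C_1, map_sub, map_pow, map_one, h5, C_sub, C_pow, C_1]
  have hL : (C (aeval (xA N g) l) * C (aeval (xA N g) h) : (OpenRing N g)[X]) =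
      1 + C (xA N g ^ N - 1) * C (aeval (xA N g) m) := by
    rw [← C_mul, ← map_mul, hlh, map_add, map_one, map_mul, map_sub, map_pow, aeval_X, map_one,
      C_add, C_mul, C_1]
  have hss : (algebraMap K (OpenRing N g)[X] s) ^ 2 = 1 := by
    rw [← map_pow, hs, map_one]
  have hX : Ψ (Φ X) = X := by
    rw [h4, map_add, map_smul, map_mul, hae, h6, map_mul, hae, h8]
    simp only [Algebra.smul_def, map_neg]
    generalize algebraMap K (OpenRing N g)[X] s = t at *
    generalize (C (aeval (xA N g) l) : (OpenRing N g)[X]) = L at *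
    generalize (C (aeval (xA N g) h) : (OpenRing N g)[X]) = H at *
    generalize (C (aeval (xA N g) m) : (OpenRing N g)[X]) = M at *
    generalize (C (xA N g ^ N - 1) : (OpenRing N g)[X]) = A at *
    linear_combination X * hL - M * A * X * hss
  have hz : Ψ (Φ (C (zA N g))) = C (zA N g) := by
    rw [h2, map_add, map_mul, hae, h6, map_mul, hpw, map_smul, h8]
    simp only [Algebra.smul_def, map_neg]
    generalize algebraMap K (OpenRing N g)[X] s = t at *
    generalize (C (aeval (xA N g) l) : (OpenRing N g)[X]) = L at *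
    generalize (C (aeval (xA N g) h) : (OpenRing N g)[X]) = H at *
    generalize (C (aeval (xA N g) m) : (OpenRing N g)[X]) = M at *
    generalize (C (xA N g ^ N - 1) : (OpenRing N g)[X]) = A at *
    linear_combination (C (zA N g)) * hL - M * A * (C (zA N g)) * hss
  have hx : Ψ (Φ (C (xA N g))) = C (xA N g) := by rw [h1, h5]
  have hh : Ψ (Φ (C (hA N g))) = C (hA N g) := by rw [h3, h7]
  have hy : Ψ (Φ (C (yA N g))) = C (yA N g) := by
    have e1 : (C (hA N g) : (OpenRing N g)[X]) = 1 + (C (xA N g) ^ N - 1) * C (yA N g) +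
        (aeval (C (xA N g)) g * C (zA N g)) ^ 2 := by
      rw [hA_eq, C_add, C_add, C_1, C_mul, C_sub, C_pow, C_1, C_pow, C_mul, Capply]
    have e2 := hh
    rw [e1] at e2
    simp only [map_add, map_mul, map_one, map_sub, map_pow, ← aeval_algHom_apply, hx, hz] at e2
    have e3 : (C (xA N g) ^ N - 1 : (OpenRing N g)[X]) ≠ 0 := by
      rw [← C_pow, ← C_1, ← C_sub]
      exact C_ne_zero.2 (xA_pow_ne_zero hN)
    apply mul_left_cancel₀ e3
    linear_combination e2
  have hC : ((Ψ.comp Φ).comp ((CAlgHom : OpenRing N g →ₐ[OpenRing N g]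
        (OpenRing N g)[X]).restrictScalars K)) =
      ((CAlgHom : OpenRing N g →ₐ[OpenRing N g] (OpenRing N g)[X]).restrictScalars K) :=
    hom_ext hy hx hz
  apply AlgHom.ext
  intro P
  induction P using Polynomial.induction_on' with
  | add p q hp hq => rw [map_add, map_add, hp, hq]
  | monomial n a =>
    rw [← C_mul_X_pow_eq_monomial, map_mul, map_pow]
    have e1 : (Ψ.comp Φ) (C a) = C a := DFunLike.congr_fun hC a
    have e2 : (Ψ.comp Φ) X = X := hX
    rw [e1, e2]
    rfl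

/-- **The cylinders are isomorphic.** -/
theorem cylinder (hN : N ≠ 0) {f g : K[X]} (hf : IsCoprime f (X ^ N - 1))
    (hg : IsCoprime g (X ^ N - 1)) :
    Nonempty ((OpenRing N f)[X] ≃ₐ[K] (OpenRing N g)[X]) := by
  obtain ⟨u, v, huv⟩ := hg
  have hu : IsCoprime u (X ^ N - 1 : K[X]) := ⟨g, v, by rw [mul_comm g u]; exact huv⟩
  obtain ⟨l, m, hlm⟩ := hu.mul_left hf
  have hlh : l * (u * f) = 1 + (X ^ N - 1) * (-m) := by linear_combination hlm
  have hgh : g * (u * f) = f + (X ^ N - 1) * (-(v * f)) := by linear_combination f * huv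
  have hfl : f * l = g + (X ^ N - 1) * (g * (-m) - (-(v * f)) * l) := by
    linear_combination g * hlm - l * f * huv
  obtain ⟨Φ, h1, h2, h3, h4⟩ := exists_cyl f g (u * f) _ hgh ((1 : K) • X)
    ((1 : K) • (C (aeval (xA N f) (-m)) * C (zA N f)) + C (aeval (xA N f) l) * X)
  obtain ⟨Ψ, h5, h6, h7, h8⟩ := exists_cyl g f l _ hfl ((-1 : K) • X)
    ((-1 : K) • (C (aeval (xA N g) (-m)) * C (zA N g)) + C (aeval (xA N g) (u * f)) * X)
  have c1 := cyl_comp hN f g (u * f) l (-m) hlh Φ Ψ 1 (one_pow 2) h1 h2 h3 h4 h5 h6 h7 h8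
  have c2 := cyl_comp hN g f l (u * f) (-m) (by rw [mul_comm]; exact hlh) Ψ Φ (-1)
    (by norm_num) h5 h6 h7 h8 h1 (by rw [neg_neg]; exact h2) h3 (by rw [neg_neg]; exact h4)
  exact ⟨AlgEquiv.ofAlgHom Ψ Φ c1 c2⟩

end

end Pool.Agent.KS6_5.TB
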