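import Pool.Agent.KS6_5.TB.Values
import Pool.Agent.KS6_5.TB.Cylinder

/-!
# Open subsets of the affine space of dimension three: classification
-/

set_option autoImplicit false

namespace Pool.Agent.KS6_5.TB

open Polynomial Pool.Agent.H868R3

universe u v

variable {K : Type u} [Field K] {N : ℕ} {f g : K[X]}

noncomputable section

theorem pow_mul_zpow {α ζ : Kˣ} {N : ℕ} (hα : α ^ N = 1) (hζ : ζ ^ N = 1) (p : ℤ) :
    (α * ζ ^ p) ^ N = 1 := by
  rw [mul_pow, hα, one_mul, ← zpow_natCast, ← zpow_mul, mul_comm, zpow_mul, zpow_natCast, hζ,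
    one_zpow]

theorem zpow_mod {G : Type v} [Group G] {x : G} {N : ℕ} (hx : x ^ N = 1) (hN : N ≠ 0) (p : ℤ) :
    x ^ p = x ^ (p % N).toNat := by
  have h0 : (0 : ℤ) ≤ p % N := Int.emod_nonneg _ (by exact_mod_cast hN)
  have h1 : p = ((p % N).toNat : ℤ) + N * (p / N) := by
    rw [Int.toNat_of_nonneg h0]
    exact (Int.emod_add_mul_ediv p N).symm
  nth_rewrite 1 [h1]
  rw [zpow_add, zpow_mul, zpow_natCast, zpow_natCast, hx, one_zpow, mul_one]

/-- divisibility by `x ^ N - 1` is checked at the roots of unity -/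
theorem dvd_of_roots {ω : K} (hω : IsPrimitiveRoot ω N) (hN : N ≠ 0) (R : K[X])
    (h : ∀ ζ : K, ζ ^ N = 1 → eval ζ R = 0) : (X ^ N - 1) ∣ R := by
  rw [X_pow_sub_one_eq_prod (Nat.pos_of_ne_zero hN) hω]
  apply Finset.prod_dvd_of_coprime
  · intro a _ b _ hab
    exact pairwise_coprime_X_sub_C Function.injective_id hab
  · intro ζ hζ
    rw [dvd_iff_isRoot]
    exact h ζ ((mem_nthRootsFinset (Nat.pos_of_ne_zero hN) 1).1 hζ)

theorem key_dvd {ω : K} (hω : IsPrimitiveRoot ω N) (hN : N ≠ 0) {α γ : Kˣ} {p m : ℤ}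
    (hval : ∀ ζ : Kˣ, ζ ^ N = 1 → eval (ζ : K) f ^ 2 = ((γ * ζ ^ m : Kˣ) : K) ^ 2 *
        eval ((α * ζ ^ p : Kˣ) : K) g ^ 2) :
    xA N f ^ N - 1 ∣ aeval (xA N f) f ^ 2 -
      (((mon N f γ m 0 : (OpenRing N f)ˣ) : OpenRing N f) *
        aeval ((mon N f α p 0 : (OpenRing N f)ˣ) : OpenRing N f) g) ^ 2 := by
  set I : Ideal (OpenRing N f) := Ideal.span {xA N f ^ N - 1} with hI
  let π : OpenRing N f →ₐ[K] (OpenRing N f ⧸ I) := Ideal.Quotient.mkₐ K I
  rw [← Ideal.mem_span_singleton, ← hI, ← Ideal.Quotient.eq_zero_iff_mem]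
  change π _ = 0
  set xq : (OpenRing N f ⧸ I)ˣ := Units.map π.toRingHom.toMonoidHom (xU N f) with hxq
  have hxqv : (xq : OpenRing N f ⧸ I) = π (xA N f) := rfl
  have hxN' : (π (xA N f)) ^ N = 1 := by
    rw [← map_pow, ← sub_eq_zero, ← map_one π, ← map_sub]
    exact Ideal.Quotient.eq_zero_iff_mem.2 (Ideal.subset_span rfl)
  have hxN : xq ^ N = 1 := Units.ext (by rw [Units.val_pow_eq_pow_val, hxqv, hxN']; rfl)
  set p' := (p % N).toNat with hp'
  set m' := (m % N).toNat with hm'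
  have hmon : ∀ (c : Kˣ) (i : ℤ), π ((mon N f c i 0 : (OpenRing N f)ˣ) : OpenRing N f) =
      algebraMap K _ (c : K) * (π (xA N f)) ^ (i % N).toNat := by
    intro c i
    have h1 : Units.map π.toRingHom.toMonoidHom (mon N f c i 0) =
        Units.map π.toRingHom.toMonoidHom (cU N f c) * xq ^ (i % N).toNat := by
      rw [mon, zpow_zero, mul_one, map_mul, map_zpow, ← hxq, zpow_mod hxN hN i]
    have h2 := congrArg (fun v : (OpenRing N f ⧸ I)ˣ => (v : OpenRing N f ⧸ I)) h1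
    rw [Units.val_mul, Units.val_pow_eq_pow_val, hxqv] at h2
    exact h2.trans (congrArg (fun a => a * _) (π.commutes _))
  obtain ⟨S, hS⟩ := dvd_of_roots hω hN
    (f ^ 2 - (C (γ : K) * X ^ m' * g.comp (C (α : K) * X ^ p')) ^ 2) (by
      intro ζ hζ
      have hζ0 : ζ ≠ 0 := by
        rintro rfl
        rw [zero_pow hN] at hζ
        exact zero_ne_one hζ
      have hu : (Units.mk0 ζ hζ0) ^ N = 1 := Units.ext (by simpa using hζ)
      have h1 := hval (Units.mk0 ζ hζ0) hu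
      rw [zpow_mod hu hN p, zpow_mod hu hN m] at h1
      simp only [Units.val_mul, Units.val_pow_eq_pow_val, Units.val_mk0] at h1
      simp only [eval_sub, eval_pow, eval_mul, eval_C, eval_X, eval_comp]
      rw [h1]
      ring)
  have hL : aeval (π (xA N f)) (X ^ N - 1 : K[X]) = 0 := by
    rw [map_sub, map_pow, aeval_X, map_one, hxN', sub_self]
  have h2 := congrArg (aeval (π (xA N f))) hS
  rw [map_mul, hL, zero_mul, map_sub, map_pow, map_pow, map_mul, map_mul, aeval_C, map_pow,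
    aeval_X, aeval_comp, map_mul, aeval_C, map_pow, aeval_X] at h2
  rw [map_sub, map_pow, map_pow, map_mul, ← aeval_algHom_apply, ← aeval_algHom_apply, hmon, hmon]
  exact h2

/-- the homomorphism given by the invariants -/
theorem exists_hom {ω : K} (hω : IsPrimitiveRoot ω N) (hN : N ≠ 0) {α γ : Kˣ} {p m : ℤ}
    (hα : α ^ N = 1) (hp : p = 1 ∨ p = -1)
    (hval : ∀ ζ : Kˣ, ζ ^ N = 1 → eval (ζ : K) f ^ 2 = ((γ * ζ ^ m : Kˣ) : K) ^ 2 *
        eval ((α * ζ ^ p : Kˣ) : K) g ^ 2) :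
    ∃ Φ : OpenRing N g →ₐ[K] OpenRing N f, Φ (xA N g) = (mon N f α p 0 : (OpenRing N f)ˣ) ∧
      Φ (zA N g) = (mon N f γ m 0 : (OpenRing N f)ˣ) * zA N f ∧ Φ (hA N g) = hA N f := by
  obtain ⟨r, hr⟩ := key_dvd hω hN hval
  obtain ⟨w, hw⟩ := exists_factor (f := f) hα hp 1
  rw [Units.val_one, one_mul] at hw
  set X' : OpenRing N f := ((mon N f α p 0 : (OpenRing N f)ˣ) : OpenRing N f) with hX'
  set c : OpenRing N f := ((mon N f γ m 0 : (OpenRing N f)ˣ) : OpenRing N f) with hc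
  have hww : (w : OpenRing N f) * ((w⁻¹ : (OpenRing N f)ˣ) : OpenRing N f) = 1 := w.mul_inv
  have hkey : 1 + (X' ^ N - 1) * (((w⁻¹ : (OpenRing N f)ˣ) : OpenRing N f) *
      (yA N f + r * zA N f ^ 2)) + (aeval X' g * (c * zA N f)) ^ 2 = hA N f := by
    rw [hA_eq, hw]
    linear_combination (xA N f ^ N - 1) * (yA N f + r * zA N f ^ 2) * hww - zA N f ^ 2 * hr
  have hXu : IsUnit X' := (mon N f α p 0).isUnit
  have hu : IsUnit (1 + (X' ^ N - 1) * (((w⁻¹ : (OpenRing N f)ˣ) : OpenRing N f) *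
      (yA N f + r * zA N f ^ 2)) + (aeval X' g * (c * zA N f)) ^ 2) := by
    rw [hkey]
    exact isUnit_hA
  refine ⟨pt _ X' (c * zA N f) hXu hu, ?_, ?_, ?_⟩
  · exact pt_x _ _ _ hXu hu
  · exact pt_z _ _ _ hXu hu
  · exact (pt_h _ _ _ hXu hu).trans hkey

theorem hom_mon {Φ : OpenRing N g →ₐ[K] OpenRing N f} {α : Kˣ} {p : ℤ}
    (hx : Φ (xA N g) = (mon N f α p 0 : (OpenRing N f)ˣ)) (c : Kˣ) (i : ℤ) :
    Φ (mon N g c i 0 : (OpenRing N g)ˣ) = (mon N f (c * α ^ i) (p * i) 0 : (OpenRing N f)ˣ) := by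
  have h0 : Units.map Φ.toRingHom.toMonoidHom (xU N g) = mon N f α p 0 := Units.ext hx
  have h1 : Units.map Φ.toRingHom.toMonoidHom (cU N g c) = cU N f c := Units.ext (Φ.commutes _)
  have h2 : Units.map Φ.toRingHom.toMonoidHom (mon N g c i 0) = mon N f (c * α ^ i) (p * i) 0 := by
    rw [mon, zpow_zero, mul_one, map_mul, map_zpow, h0, h1, mon_zpow]
    have h3 : cU N f c = mon N f c 0 0 := by
      rw [mon, zpow_zero, zpow_zero, mul_one, mul_one]
    rw [h3, mon_mul]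
    exact mon_eq rfl (by ring) (by ring)
  exact congrArg (fun v : (OpenRing N f)ˣ => (v : OpenRing N f)) h2

theorem hom_comp (hN : N ≠ 0) {Φ : OpenRing N g →ₐ[K] OpenRing N f}
    {Ψ : OpenRing N f →ₐ[K] OpenRing N g} {α γ α' γ' : Kˣ} {p m m' : ℤ} (hpp : p * p = 1)
    (hx : Φ (xA N g) = (mon N f α p 0 : (OpenRing N f)ˣ))
    (hz : Φ (zA N g) = (mon N f γ m 0 : (OpenRing N f)ˣ) * zA N f)
    (hh : Φ (hA N g) = hA N f)
    (hx' : Ψ (xA N f) = (mon N g α' p 0 : (OpenRing N g)ˣ))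
    (hz' : Ψ (zA N f) = (mon N g γ' m' 0 : (OpenRing N g)ˣ) * zA N g)
    (hh' : Ψ (hA N f) = hA N g) (h1 : α * α' ^ p = 1) (h2 : γ * α' ^ m * γ' = 1)
    (h3 : p * m + m' = 0) : Ψ.comp Φ = AlgHom.id K _ := by
  have ex : Ψ (Φ (xA N g)) = xA N g := by
    rw [hx, hom_mon hx', h1, hpp]
    have : mon N g 1 1 0 = xU N g := by
      rw [mon, map_one, one_mul, zpow_one, zpow_zero, mul_one]
    rw [this, xU_val]
  have ez : Ψ (Φ (zA N g)) = zA N g := by
    rw [hz, map_mul, hom_mon hx', hz', ← mul_assoc, ← Units.val_mul, mon_mul, h2, h3]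
    have : mon N g 1 0 (0 + 0) = 1 := by
      rw [mon, map_one, one_mul, zpow_zero, add_zero, zpow_zero, mul_one]
    rw [this, Units.val_one, one_mul]
  have eh : Ψ (Φ (hA N g)) = hA N g := by rw [hh, hh']
  have ey : Ψ (Φ (yA N g)) = yA N g := by
    have h4 := eh
    rw [hA_eq] at h4
    simp only [map_add, map_mul, map_pow, map_sub, map_one, ← aeval_algHom_apply, ex, ez] at h4
    apply mul_left_cancel₀ (xA_pow_ne_zero (f := g) hN)
    linear_combination h4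
  exact hom_ext ey ex ez

/-- **The classification.** -/
theorem iso_iff [CharZero K] {ω : K} (hω : IsPrimitiveRoot ω N) (hN : N ≠ 0)
    (hf : IsCoprime f (X ^ N - 1)) (hg : IsCoprime g (X ^ N - 1)) :
    Nonempty (OpenRing N g ≃ₐ[K] OpenRing N f) ↔
      ∃ (α γ : Kˣ) (p m : ℤ), α ^ N = 1 ∧ (p = 1 ∨ p = -1) ∧ ∀ ζ : Kˣ, ζ ^ N = 1 →
        eval (ζ : K) f ^ 2 = ((γ * ζ ^ m : Kˣ) : K) ^ 2 * eval ((α * ζ ^ p : Kˣ) : K) g ^ 2 := by
  constructor
  · rintro ⟨φ⟩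
    exact values hN hf hg φ
  · rintro ⟨α, γ, p, m, hα, hp, hval⟩
    have hpp : p * p = 1 := by
      rcases hp with rfl | rfl <;> norm_num
    have hα' : (α ^ (-p)) ^ N = 1 := by
      rw [← zpow_natCast, ← zpow_mul, mul_comm, zpow_mul, zpow_natCast, hα, one_zpow]
    obtain ⟨Φ, hx, hz, hh⟩ := exists_hom hω hN hα hp hval
    have hval' : ∀ ξ : Kˣ, ξ ^ N = 1 → eval (ξ : K) g ^ 2 =
        ((γ⁻¹ * α ^ (p * m) * ξ ^ (-(p * m)) : Kˣ) : K) ^ 2 *
          eval ((α ^ (-p) * ξ ^ p : Kˣ) : K) f ^ 2 := by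
      intro ξ hξ
      have h1 : (α ^ (-p) * ξ ^ p) ^ N = 1 := pow_mul_zpow hα' hξ p
      have h2 := hval (α ^ (-p) * ξ ^ p) h1
      have h3 : α * (α ^ (-p) * ξ ^ p) ^ p = ξ := by
        rw [mul_zpow, ← zpow_mul, ← zpow_mul, hpp, zpow_one, neg_mul, hpp, zpow_neg, zpow_one]
        rw [mul_inv_cancel_left]
      rw [h3] at h2
      rw [h2, ← mul_assoc, ← mul_pow, ← Units.val_mul]
      have h4 : γ⁻¹ * α ^ (p * m) * ξ ^ (-(p * m)) * (γ * (α ^ (-p) * ξ ^ p) ^ m) = 1 := by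
        rw [mul_zpow, ← zpow_mul, ← zpow_mul, neg_mul, zpow_neg, zpow_neg]
        calc γ⁻¹ * α ^ (p * m) * (ξ ^ (p * m))⁻¹ * (γ * ((α ^ (p * m))⁻¹ * ξ ^ (p * m))) =
            (γ⁻¹ * γ) * (α ^ (p * m) * (α ^ (p * m))⁻¹) * ((ξ ^ (p * m))⁻¹ * ξ ^ (p * m)) := by
              ac_rfl
          _ = 1 := by simp
      rw [h4, Units.val_one, one_pow, one_mul]
    obtain ⟨Ψ, hx', hz', hh'⟩ := exists_hom hω hN hα' hp hval'
    refine ⟨AlgEquiv.ofAlgHom Φ Ψ ?_ ?_⟩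
    · refine hom_comp hN hpp hx' hz' hh' hx hz hh ?_ ?_ ?_
      · rw [← zpow_add, neg_add_cancel, zpow_zero]
      · rw [mul_assoc, mul_assoc, ← mul_assoc (α ^ (p * m)), ← zpow_add, add_neg_cancel, zpow_zero,
          one_mul, inv_mul_cancel]
      · linear_combination (-m) * hpp
    · refine hom_comp hN hpp hx hz hh hx' hz' hh' ?_ ?_ ?_
      · rw [← zpow_mul, neg_mul, hpp, zpow_neg, zpow_one, mul_inv_cancel]
      · rw [← zpow_mul, neg_mul, zpow_neg]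
        calc γ * (α ^ (p * m))⁻¹ * (γ⁻¹ * α ^ (p * m)) =
            (γ * γ⁻¹) * ((α ^ (p * m))⁻¹ * α ^ (p * m)) := by ac_rfl
          _ = 1 := by simp
      · ring

end

end Pool.Agent.KS6_5.TB
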