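import Pool.Agent.KS6_5.TB.Kernel

/-!
# Open subsets of the affine space of dimension three: derivations which vanish on the units
-/

set_option autoImplicit false

namespace Pool.Agent.KS6_5.TB

open MvPolynomial Pool.Agent.H868R3

universe u v

variable {K : Type u} [Field K] {N : ℕ} {f g : Polynomial K}

noncomputable section

theorem alg_top (T : Subalgebra K (OpenRing N f)) (hy : yA N f ∈ T) (hx : xA N f ∈ T)
    (hz : zA N f ∈ T) (hinv : ∀ e e' : OpenRing N f, e ∈ T → e * e' = 1 → e' ∈ T)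
    (a : OpenRing N f) : a ∈ T := by
  have hP : ∀ p, em N f p ∈ T := by
    intro p
    have h1 : (⊤ : Subalgebra K (MvPolynomial (Fin 3) K)) ≤ T.comap (em N f) := by
      rw [← adjoin_range_X]
      apply Algebra.adjoin_le
      rintro _ ⟨i, rfl⟩
      fin_cases i
      · exact hy
      · exact hx
      · exact hz
    exact h1 trivial
  obtain ⟨n, p, h⟩ := exists_rep a
  obtain ⟨e, he⟩ := (isUnit_s (N := N) (f := f)).pow n |>.exists_right_inv
  have h1 : a = em N f p * e := by
    rw [← h, mul_assoc, he, mul_one]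
  rw [h1]
  exact T.mul_mem (hP p) (hinv _ _ (T.pow_mem (hP _) n) he)

theorem der_ext {D₁ D₂ : Derivation K (OpenRing N f) (OpenRing N f)}
    (hy : D₁ (yA N f) = D₂ (yA N f)) (hx : D₁ (xA N f) = D₂ (xA N f))
    (hz : D₁ (zA N f) = D₂ (zA N f)) : D₁ = D₂ := by
  let T : Subalgebra K (OpenRing N f) :=
    { carrier := {a | D₁ a = D₂ a}
      mul_mem' := by
        intro a b ha hb
        change D₁ (a * b) = D₂ (a * b)
        change D₁ a = D₂ a at ha
        change D₁ b = D₂ b at hb
        rw [Derivation.leibniz, Derivation.leibniz, ha, hb]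
      add_mem' := by
        intro a b ha hb
        change D₁ (a + b) = D₂ (a + b)
        change D₁ a = D₂ a at ha
        change D₁ b = D₂ b at hb
        rw [map_add, map_add, ha, hb]
      algebraMap_mem' := by
        intro r
        change D₁ _ = D₂ _
        rw [Derivation.map_algebraMap, Derivation.map_algebraMap] }
  apply Derivation.ext
  intro a
  refine alg_top T hy hx hz ?_ a
  intro e e' he h
  change D₁ e' = D₂ e'
  change D₁ e = D₂ e at he
  have h1 := congrArg D₁ h
  have h2 := congrArg D₂ h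
  rw [Derivation.leibniz, Derivation.map_one_eq_zero, smul_eq_mul, smul_eq_mul] at h1 h2
  have he0 : e ≠ 0 := by
    rintro rfl
    rw [zero_mul] at h
    exact zero_ne_one h
  apply mul_left_cancel₀ he0
  rw [he] at h1
  linear_combination h1 - h2

theorem dvd_cancel {R : Type v} [CommRing R] [IsDomain R] {r a b : R} (hr : Prime r)
    (hra : ¬ r ∣ a) (h : a ∣ r * b) : a ∣ b := by
  obtain ⟨c, hc⟩ := h
  have h1 : r ∣ a * c := ⟨b, hc.symm⟩
  obtain ⟨d, rfl⟩ := (hr.dvd_or_dvd h1).resolve_left hra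
  refine ⟨d, mul_left_cancel₀ hr.ne_zero ?_⟩
  rw [hc]
  ring

theorem dvd_cancel_pow {R : Type v} [CommRing R] [IsDomain R] {r a b : R} (hr : Prime r)
    (hra : ¬ r ∣ a) (n : ℕ) (h : a ∣ r ^ n * b) : a ∣ b := by
  induction n with
  | zero => simpa using h
  | succ n ih =>
    apply ih
    apply dvd_cancel hr hra
    rwa [← mul_assoc, ← pow_succ']

theorem h_not_dvd (hN : N ≠ 0) : ¬ hh N f ∣ X 1 ^ N - 1 := by
  rintro ⟨q, hq⟩
  have h1 := congrArg (aeval (![1, 0, 0] : Fin 3 → K)) hq
  rw [map_sub, map_pow, aeval_X, map_one, map_mul, map_hh, aeval_X, aeval_X, aeval_X] at h1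
  simp [hN] at h1

theorem A_dvd (hN : N ≠ 0) {d : OpenRing N f} (h : xA N f ^ N - 1 ∣ zA N f * d) :
    xA N f ^ N - 1 ∣ d := by
  obtain ⟨c, hc⟩ := h
  obtain ⟨n, p, hp⟩ := exists_rep d
  obtain ⟨m, q, hq⟩ := exists_rep c
  have h1 : (X 1 ^ N - 1) * (q * (X 1 * hh N f) ^ n) = X 2 * (X 1 ^ m * (hh N f ^ m * p)) := by
    apply em_injective
    have h2 : em N f (X 1 ^ N - 1) = xA N f ^ N - 1 := by
      rw [map_sub, map_pow, map_one]
      rfl
    have h3 : em N f (X 1 ^ m * (hh N f ^ m * p)) = em N f (X 1 * hh N f) ^ m * em N f p := by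
      rw [← map_pow, ← map_mul]
      congr 1
      ring
    rw [map_mul, h2, map_mul, map_mul, h3, map_pow, ← hp, ← hq]
    change _ = zA N f * _
    linear_combination (- (em N f (X 1 * hh N f)) ^ m * (em N f (X 1 * hh N f)) ^ n) * hc
  have h2 : (X 1 ^ N - 1 : MvPolynomial (Fin 3) K) ∣ p := by
    have h3 := dvd_cancel (X_prime (R := K) (i := (2 : Fin 3))) (z_not_dvd hN) ⟨_, h1.symm⟩
    have h4 := dvd_cancel_pow (X_prime (R := K) (i := (1 : Fin 3))) (x_not_dvd hN) m h3
    exact dvd_cancel_pow (prime_hh hN) (h_not_dvd hN) m h4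
  obtain ⟨p', rfl⟩ := h2
  obtain ⟨e, he⟩ := (isUnit_s (N := N) (f := f)).pow n |>.exists_right_inv
  refine ⟨em N f p' * e, ?_⟩
  have h5 : em N f ((X 1 ^ N - 1) * p') = (xA N f ^ N - 1) * em N f p' := by
    rw [map_mul, map_sub, map_pow, map_one]
    rfl
  rw [h5] at hp
  linear_combination e * hp - d * he

/-- derivations which vanish on the units are multiples of the given one -/
theorem deriv_eq [CharZero K] (hN : N ≠ 0) (hf : IsCoprime f (Polynomial.X ^ N - 1))
    (D : Derivation K (OpenRing N f) (OpenRing N f)) (hx : D (xA N f) = 0)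
    (hh' : D (hA N f) = 0) : ∃ G : OpenRing N f, ∀ b, D b = G * δA N f b := by
  have hF : D (Polynomial.aeval (xA N f) f) = 0 := by
    rw [Derivation.map_aeval, hx, smul_zero]
  have hpow : D (xA N f ^ N - 1) = 0 := by
    rw [map_sub, deriv_pow_zero D hx, Derivation.map_one_eq_zero, sub_zero]
  have h1 : (xA N f ^ N - 1) * D (yA N f) +
      2 * Polynomial.aeval (xA N f) f ^ 2 * zA N f * D (zA N f) = 0 := by
    have h2 := hh'
    rw [hA_eq, map_add, map_add, Derivation.map_one_eq_zero, Derivation.leibniz, hpow,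
      Derivation.leibniz_pow, Derivation.leibniz, hF] at h2
    simp only [smul_eq_mul, nsmul_eq_mul] at h2
    rw [← h2]
    push_cast
    ring
  obtain ⟨u, v, huv⟩ := hf
  have h2 : Polynomial.aeval (xA N f) u * Polynomial.aeval (xA N f) f +
      Polynomial.aeval (xA N f) v * (xA N f ^ N - 1) = 1 := by
    have := congrArg (Polynomial.aeval (xA N f)) huv
    simpa using this
  have h2half : (algebraMap K (OpenRing N f) 2⁻¹) * 2 = 1 := by
    have : (2 : OpenRing N f) = algebraMap K (OpenRing N f) 2 := by rw [map_ofNat]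
    rw [this, ← map_mul, inv_mul_cancel₀ two_ne_zero, map_one]
  set F := Polynomial.aeval (xA N f) f with hFdef
  set U := Polynomial.aeval (xA N f) u with hU
  set V := Polynomial.aeval (xA N f) v with hV
  set A := xA N f ^ N - 1 with hA'
  have h3 : A ∣ zA N f * D (zA N f) := by
    refine ⟨- algebraMap K _ 2⁻¹ * U ^ 2 * D (yA N f) +
      V * (1 + U * F) * (zA N f * D (zA N f)), ?_⟩
    set t := algebraMap K (OpenRing N f) 2⁻¹ with ht
    linear_combination (zA N f * D (zA N f)) * (-(1 + U * F)) * h2 + t * U ^ 2 * h1 -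
      U ^ 2 * F ^ 2 * (zA N f * D (zA N f)) * h2half
  obtain ⟨G, hG⟩ := A_dvd hN h3
  refine ⟨G, fun b => ?_⟩
  have hA0 : A ≠ 0 := by
    intro h
    have h2 : em N f (MvPolynomial.X 1 ^ N - 1) = em N f 0 := by
      rw [map_sub, map_pow, map_one, map_zero]
      exact h
    exact xpow_ne_zero hN (em_injective h2)
  have h4 : D = G • δA N f := by
    apply der_ext
    · rw [Derivation.smul_apply, δA_y, smul_eq_mul]
      apply mul_left_cancel₀ hA0
      rw [hG] at h1
      linear_combination h1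
    · rw [Derivation.smul_apply, δA_x, smul_zero, hx]
    · rw [Derivation.smul_apply, δA_z, smul_eq_mul, hG]
      ring
  rw [h4, Derivation.smul_apply, smul_eq_mul]

theorem δA_unit [CharZero K] {e : OpenRing N f} (he : IsUnit e) : δA N f e = 0 :=
  lnd_unit _ δA_lnd he

theorem ιA_unit [CharZero K] (hN : N ≠ 0) {e : OpenRing N f} (he : IsUnit e) : ιA N f e = e :=
  ker_fixed hN (δA_unit he)

/-- the derivation transported by an isomorphism -/
theorem transport [CharZero K] (hN : N ≠ 0) (hf : IsCoprime f (Polynomial.X ^ N - 1))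
    (φ : OpenRing N g ≃ₐ[K] OpenRing N f) :
    ∃ G : OpenRing N f, ∀ b, φ (δA N g (φ.symm b)) = G * δA N f b := by
  let D : Derivation K (OpenRing N f) (OpenRing N f) :=
    Derivation.mk' (φ.toLinearMap ∘ₗ ((δA N g : OpenRing N g →ₗ[K] OpenRing N g) ∘ₗ
      φ.symm.toLinearMap)) (by
      intro a b
      change φ (δA N g (φ.symm (a * b))) = a • φ (δA N g (φ.symm b)) +
        b • φ (δA N g (φ.symm a))
      rw [map_mul, Derivation.leibniz, map_add, smul_eq_mul, smul_eq_mul, map_mul, map_mul,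
        AlgEquiv.apply_symm_apply, AlgEquiv.apply_symm_apply]
      rfl)
  have hD : ∀ b, D b = φ (δA N g (φ.symm b)) := fun b => rfl
  obtain ⟨G, hG⟩ := deriv_eq hN hf D
    (by rw [hD, δA_unit (isUnit_xA.map φ.symm), map_zero])
    (by rw [hD, δA_unit (isUnit_hA.map φ.symm), map_zero])
  exact ⟨G, fun b => by rw [← hD, hG]⟩

theorem conj_deriv [CharZero K] (hN : N ≠ 0) (hf : IsCoprime f (Polynomial.X ^ N - 1))
    (hg : IsCoprime g (Polynomial.X ^ N - 1)) (φ : OpenRing N g ≃ₐ[K] OpenRing N f) :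
    ∃ e : (OpenRing N f)ˣ, ∀ b, δA N f (φ b) = e * φ (δA N g b) := by
  obtain ⟨G, hG⟩ := transport hN hf φ
  obtain ⟨G', hG'⟩ := transport hN hg φ.symm
  have h1 : ∀ b, δA N f (φ b) = φ G' * φ (δA N g b) := by
    intro b
    have h2 := congrArg φ (hG' b)
    rw [AlgEquiv.symm_symm, AlgEquiv.apply_symm_apply, map_mul] at h2
    exact h2
  have h3 : G * φ G' = 1 := by
    have h4 := h1 (φ.symm (zA N f))
    rw [AlgEquiv.apply_symm_apply, hG, δA_z] at h4
    have hA0 : xA N f ^ N - 1 ≠ 0 := by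
      intro h
      have h2 : em N f (MvPolynomial.X 1 ^ N - 1) = em N f 0 := by
        rw [map_sub, map_pow, map_one, map_zero]
        exact h
      exact xpow_ne_zero hN (em_injective h2)
    apply mul_left_cancel₀ hA0
    linear_combination - h4
  refine ⟨(IsUnit.of_mul_eq_one G (by rw [mul_comm]; exact h3) : IsUnit (φ G')).unit, fun b => ?_⟩
  rw [h1 b]
  rfl

end

end Pool.Agent.KS6_5.TB
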