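import Mathlib

/-!
# Open subsets of the affine space of dimension three: definitions
-/

set_option autoImplicit false

namespace Pool.Agent.KS6_5.TB

open MvPolynomial

universe u

/-- The polynomial `h = 1 + (x ^ N - 1) y + (f(x) z) ^ 2` in the variables `y = X 0`, `x = X 1` and
`z = X 2`. -/
noncomputable def hh {K : Type u} [Field K] (N : ℕ) (f : Polynomial K) : MvPolynomial (Fin 3) K :=
  1 + (X 1 ^ N - 1) * X 0 + (Polynomial.aeval (X 1) f * X 2) ^ 2

/-- The ring `K[y, x, z][1 / (x h)]`, the coordinate ring of the open subset of the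
affine space of dimension three defined by `x ≠ 0`, `h = 1 + (x ^ N - 1) y + (f(x) z) ^ 2 ≠ 0`. -/
abbrev OpenRing {K : Type u} [Field K] (N : ℕ) (f : Polynomial K) : Type u :=
  Localization.Away (X 1 * hh N f : MvPolynomial (Fin 3) K)

/-- The parameters: the polynomials of degree less than `N` with `g(1) = 1` and without zeros among the
`N`-th roots of unity. -/
def Params (K : Type u) [Field K] (N : ℕ) : Set (Polynomial K) :=
  {g | g.natDegree < N ∧ Polynomial.eval 1 g = 1 ∧ IsCoprime g (Polynomial.X ^ N - 1)}

end Pool.Agent.KS6_5.TB
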