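import Pool.Agent.KS6_5.TB.Classify

/-!
# Open subsets of the affine space of dimension three: families
-/

set_option autoImplicit false

namespace Pool.Agent.KS6_5.TB

open Polynomial Pool.Agent.H868R3

universe u v

variable {K : Type u} [Field K] {N : ℕ} {f g : K[X]}

noncomputable section

theorem few [CharZero K] {ω : K} (hω : IsPrimitiveRoot ω N) (hN : N ≠ 0)
    (hf : IsCoprime f (X ^ N - 1)) :
    {g ∈ Params K N | Nonempty (OpenRing N g ≃ₐ[K] OpenRing N f)}.Finite := by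
  classical
  have hpos : 0 < N := Nat.pos_of_ne_zero hN
  set μ : Finset K := nthRootsFinset N (1 : K) with hμ
  have hmem : ∀ ζ : K, ζ ∈ μ ↔ ζ ^ N = 1 := fun ζ => mem_nthRootsFinset hpos 1
  have hcard : μ.card = N := hω.card_nthRootsFinset
  -- the finite set of all possible values
  let V : Finset K := (μ ×ˢ μ).biUnion fun q =>
    (X ^ (2 * N) - C (eval q.1 f ^ (2 * N) / eval q.2 f ^ (2 * N)) : K[X]).roots.toFinset
  have hfin : (Set.pi Set.univ fun _ : μ => (V : Set K)).Finite :=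
    Set.Finite.pi fun _ => V.finite_toSet
  refine Set.Finite.of_injOn (f := fun g : K[X] => fun ζ : μ => eval (ζ : K) g) ?_ ?_ hfin
  · rintro g ⟨⟨hdeg, h1, hg⟩, ⟨φ⟩⟩ ξ -
    obtain ⟨α, γ, p, m, hα, hp, hval⟩ := values hN hf hg φ
    have hpp : p * p = 1 := by rcases hp with rfl | rfl <;> norm_num
    have hα' : (α ^ (-p)) ^ N = 1 := by
      rw [← zpow_natCast, ← zpow_mul, mul_comm, zpow_mul, zpow_natCast, hα, one_zpow]
    have key : ∀ ξ : Kˣ, ξ ^ N = 1 → ∃ ζ : Kˣ, ζ ^ N = 1 ∧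
        eval (ζ : K) f ^ (2 * N) = (γ : K) ^ (2 * N) * eval (ξ : K) g ^ (2 * N) := by
      intro ξ hξ
      have h2 : (α ^ (-p) * ξ ^ p) ^ N = 1 := pow_mul_zpow hα' hξ p
      refine ⟨_, h2, ?_⟩
      have h3 : α * (α ^ (-p) * ξ ^ p) ^ p = ξ := by
        rw [mul_zpow, ← zpow_mul, ← zpow_mul, hpp, zpow_one, neg_mul, hpp, zpow_neg, zpow_one]
        rw [mul_inv_cancel_left]
      have h4 := hval _ h2
      rw [h3] at h4
      rw [pow_mul, h4, mul_pow, ← pow_mul, ← pow_mul, mul_comm 2 N, pow_mul _ N 2,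
        pow_mul (γ : K) N 2]
      congr 2
      rw [← Units.val_pow_eq_pow_val, ← Units.val_pow_eq_pow_val]
      congr 1
      rw [mul_pow, ← zpow_natCast ((α ^ (-p) * ξ ^ p) ^ m) N, ← zpow_mul, mul_comm m, zpow_mul,
        zpow_natCast, h2, one_zpow, mul_one]
    have hζ0 : (ξ : K) ≠ 0 := by
      intro h0
      have := (hmem _).1 ξ.2
      rw [h0, zero_pow hN] at this
      exact zero_ne_one this
    obtain ⟨ζ, hζ, h2⟩ := key (Units.mk0 _ hζ0) (Units.ext (by simpa using (hmem _).1 ξ.2))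
    obtain ⟨ζ₀, hζ₀, h3⟩ := key 1 (one_pow N)
    rw [Units.val_one, h1, one_pow, mul_one] at h3
    have hcoe : ∀ v : Kˣ, v ^ N = 1 → (v : K) ^ N = 1 := by
      intro v hv
      have := congrArg (fun v : Kˣ => (v : K)) hv
      simpa only [Units.val_pow_eq_pow_val, Units.val_one] using this
    rw [Units.val_mk0, ← h3] at h2
    have hne : eval (ζ₀ : K) f ^ (2 * N) ≠ 0 := pow_ne_zero _ (eval_one_ne hf (hcoe _ hζ₀))
    change eval (ξ : K) g ∈ (V : Set K)
    rw [Finset.mem_coe, Finset.mem_biUnion]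
    refine ⟨((ζ : K), (ζ₀ : K)), Finset.mem_product.2 ⟨(hmem _).2 (hcoe _ hζ),
      (hmem _).2 (hcoe _ hζ₀)⟩, ?_⟩
    rw [Multiset.mem_toFinset, mem_roots (X_pow_sub_C_ne_zero (by positivity) _), IsRoot.def,
      eval_sub, eval_pow, eval_X, eval_C, sub_eq_zero, eq_div_iff hne, h2]
    ring
  · rintro g ⟨⟨hdeg, -, -⟩, -⟩ g' ⟨⟨hdeg', -, -⟩, -⟩ h
    have hlt : ∀ q : K[X], q.natDegree < N → q.degree < μ.card := by
      intro q hq
      rw [hcard]
      exact lt_of_le_of_lt degree_le_natDegree (by exact_mod_cast hq)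
    refine eq_of_degrees_lt_of_eval_finset_eq μ (hlt _ hdeg) (hlt _ hdeg') fun ζ hζ => ?_
    exact congrFun h ⟨ζ, hζ⟩

theorem params_infinite [CharZero K] {ω : K} (hω : IsPrimitiveRoot ω N) (hN : 1 < N) :
    (Params K N).Infinite := by
  classical
  have hpos : 0 < N := by omega
  set μ : Finset K := nthRootsFinset N (1 : K) with hμ
  have hmem : ∀ ζ : K, ζ ∈ μ ↔ ζ ^ N = 1 := fun ζ => mem_nthRootsFinset hpos 1
  -- the good values
  let Bad : Finset K := μ.image fun ζ => - (ζ - 1)⁻¹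
  have hinf : ((Bad : Set K)ᶜ).Infinite := Bad.finite_toSet.infinite_compl
  have hinj : Function.Injective (fun c : K => (1 + C c * (X - 1) : K[X])) := by
    intro c c' h
    have h1 := congrArg (eval 2) h
    simp only [eval_add, eval_one, eval_mul, eval_C, eval_sub, eval_X] at h1
    linear_combination h1
  refine ((hinf.image (hinj.injOn)).mono ?_)
  rintro _ ⟨c, hc, rfl⟩
  refine ⟨?_, by simp, ?_⟩
  · have : (1 + C c * (X - 1) : K[X]).natDegree ≤ 1 := by compute_degree
    exact lt_of_le_of_lt this hN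
  · rw [isCoprime_comm, X_pow_sub_one_eq_prod hpos hω]
    apply IsCoprime.prod_left
    intro ζ hζ
    have hne : eval ζ (1 + C c * (X - 1) : K[X]) ≠ 0 := by
      intro h0
      apply hc
      rw [Finset.mem_coe, Finset.mem_image]
      refine ⟨ζ, hζ, ?_⟩
      simp only [eval_add, eval_one, eval_mul, eval_C, eval_sub, eval_X] at h0
      have h1 : ζ - 1 ≠ 0 := by
        intro h1
        rw [h1, mul_zero, add_zero] at h0
        exact one_ne_zero h0
      field_simp
      linear_combination - h0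
    exact (irreducible_X_sub_C ζ).coprime_iff_not_dvd.2 (by rwa [dvd_iff_isRoot])

theorem not_rigid [CharZero K] {ω : K} (hω : IsPrimitiveRoot ω N) (hN : 1 < N)
    (hf : IsCoprime f (X ^ N - 1)) : ¬ IsRigidFactor K (OpenRing N f) := by
  intro hrig
  have hN0 : N ≠ 0 := by omega
  obtain ⟨g, hg, hg'⟩ := ((params_infinite hω hN).sdiff (few hω hN0 hf)).nonempty
  apply hg'
  refine ⟨hg, ?_⟩
  have h1 : Algebra.FiniteType K (OpenRing N g) := inferInstance
  obtain ⟨φ⟩ := hrig (OpenRing N g) inferInstance h1 (cylinder hN0 hf hg.2.2)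
  exact ⟨φ.symm⟩

instance smooth_open : Algebra.Smooth K (OpenRing N f) where

instance ufd_open : UniqueFactorizationMonoid (OpenRing N f) := inferInstance

end

end Pool.Agent.KS6_5.TB
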