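import Pool.Agent.KS6_5.TB.Conj

/-!
# Open subsets of the affine space of dimension three: the isomorphisms
-/

set_option autoImplicit false

namespace Pool.Agent.KS6_5.TB

open MvPolynomial Pool.Agent.H868R3

universe u v

variable {K : Type u} [Field K] {N : ℕ} {f g : Polynomial K}

noncomputable section

/-- restriction to the formal curve `y = 0`, `x = ζ` with the parameter `z` -/
def ρA (N : ℕ) (f : Polynomial K) (ζ : Kˣ) : OpenRing N f →ₐ[K] PowerSeries K :=
  pt 0 (PowerSeries.C (ζ : K)) PowerSeries.X (ζ.isUnit.map PowerSeries.C) (by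
    rw [PowerSeries.isUnit_iff_constantCoeff]
    simp)

theorem ρ_x (ζ : Kˣ) : ρA N f ζ (xA N f) = PowerSeries.C (ζ : K) := pt_x _ _ _ _ _
theorem ρ_z (ζ : Kˣ) : ρA N f ζ (zA N f) = PowerSeries.X := pt_z _ _ _ _ _
theorem ρ_h (ζ : Kˣ) : ρA N f ζ (hA N f) =
    1 + PowerSeries.X ^ 2 * PowerSeries.C (Polynomial.eval (ζ : K) f ^ 2) := by
  have h : Polynomial.aeval (PowerSeries.C (ζ : K) : PowerSeries K) f =
      PowerSeries.C (Polynomial.eval (ζ : K) f) := by
    have h1 : (PowerSeries.C (ζ : K) : PowerSeries K) = algebraMap K (PowerSeries K) ζ := rfl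
    rw [h1, Polynomial.aeval_algebraMap_apply]
    rfl
  refine (pt_h _ _ _ _ _).trans ?_
  rw [h, mul_zero, add_zero, map_pow]
  ring

/-- the substitution `z ↦ -z` -/
def negS (K : Type u) [Field K] : PowerSeries K →ₐ[K] PowerSeries K :=
  { PowerSeries.evalNegHom with
    commutes' := fun r => by
      change PowerSeries.evalNegHom (PowerSeries.C r) = PowerSeries.C r
      rw [PowerSeries.evalNegHom]
      ext n
      rw [PowerSeries.coeff_rescale, PowerSeries.coeff_C]
      split_ifs with h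
      · rw [h]; simp
      · simp }

theorem negS_X : negS K PowerSeries.X = - PowerSeries.X := PowerSeries.evalNegHom_X

theorem ρ_ι (ζ : Kˣ) (a : OpenRing N f) : ρA N f ζ (ιA N f a) = negS K (ρA N f ζ a) := by
  have h : (ρA N f ζ).comp (ιA N f) = (negS K).comp (ρA N f ζ) := by
    apply hom_ext
    · change ρA N f ζ (ιA N f (yA N f)) = negS K (ρA N f ζ (yA N f))
      have h1 : ρA N f ζ (yA N f) = 0 := pt_y _ _ _ _ _
      rw [ιA_y, h1, map_zero]
    · change ρA N f ζ (ιA N f (xA N f)) = negS K (ρA N f ζ (xA N f))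
      rw [ιA_x, ρ_x]
      exact ((negS K).commutes _).symm
    · change ρA N f ζ (ιA N f (zA N f)) = negS K (ρA N f ζ (zA N f))
      rw [ιA_z, map_neg, ρ_z, negS_X]
  exact DFunLike.congr_fun h a

/-- monomials -/
def mon (N : ℕ) (f : Polynomial K) (c : Kˣ) (i j : ℤ) : (OpenRing N f)ˣ :=
  cU N f c * xU N f ^ i * hU N f ^ j

/-- the restriction of `h` -/
def HU (N : ℕ) (f : Polynomial K) (ζ : Kˣ) : (PowerSeries K)ˣ :=
  Units.map (ρA N f ζ).toRingHom.toMonoidHom (hU N f)

theorem HU_val (ζ : Kˣ) : ((HU N f ζ : (PowerSeries K)ˣ) : PowerSeries K) =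
    1 + PowerSeries.X ^ 2 * PowerSeries.C (Polynomial.eval (ζ : K) f ^ 2) := ρ_h ζ

theorem HU_zpow (ζ : Kˣ) (j : ℤ) : ∃ B : PowerSeries K,
    ((HU N f ζ ^ j : (PowerSeries K)ˣ) : PowerSeries K) = 1 + PowerSeries.X ^ 2 * B ∧
      PowerSeries.constantCoeff B = j * Polynomial.eval (ζ : K) f ^ 2 :=
  series_zpow 2 two_pos _ _ _ (HU_val ζ) (PowerSeries.constantCoeff_C _) j

theorem ρ_mon (ζ c : Kˣ) (i j : ℤ) : ρA N f ζ (mon N f c i j : (OpenRing N f)ˣ) =
    PowerSeries.C ((c * ζ ^ i : Kˣ) : K) * ((HU N f ζ ^ j : (PowerSeries K)ˣ) : PowerSeries K) := by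
  have h1 : Units.map (ρA N f ζ).toRingHom.toMonoidHom (mon N f c i j) =
      Units.map (PowerSeries.C (R := K)).toMonoidHom (c * ζ ^ i) * HU N f ζ ^ j := by
    have e1 : Units.map (ρA N f ζ).toRingHom.toMonoidHom (cU N f c) =
        Units.map (PowerSeries.C (R := K)).toMonoidHom c :=
      Units.ext ((ρA N f ζ).commutes _)
    have e2 : Units.map (ρA N f ζ).toRingHom.toMonoidHom (xU N f) =
        Units.map (PowerSeries.C (R := K)).toMonoidHom ζ :=
      Units.ext (ρ_x ζ)
    rw [mon, map_mul, map_mul, map_zpow, map_zpow, map_mul, map_zpow, e1, e2, HU]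
  exact congrArg (fun u : (PowerSeries K)ˣ => (u : PowerSeries K)) h1

theorem mon_mul (c c' : Kˣ) (i j i' j' : ℤ) :
    mon N f c i j * mon N f c' i' j' = mon N f (c * c') (i + i') (j + j') := by
  rw [mon, mon, mon, map_mul, zpow_add, zpow_add]
  ac_rfl

theorem mon_zpow (c : Kˣ) (i j l : ℤ) :
    mon N f c i j ^ l = mon N f (c ^ l) (i * l) (j * l) := by
  rw [mon, mon, map_zpow, mul_zpow, mul_zpow, zpow_mul, zpow_mul]

theorem mon_pow (c : Kˣ) (i j : ℤ) (n : ℕ) :
    mon N f c i j ^ n = mon N f (c ^ n) (i * n) (j * n) := by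
  have := mon_zpow (N := N) (f := f) c i j n
  rwa [zpow_natCast, zpow_natCast] at this

theorem mon_eq {c c' : Kˣ} {i i' j j' : ℤ} (hc : c = c') (hi : i = i') (hj : j = j') :
    mon N f c i j = mon N f c' i' j' := by
  rw [hc, hi, hj]

theorem exists_mon (hN : N ≠ 0) (u : (OpenRing N f)ˣ) : ∃ (c : Kˣ) (i j : ℤ), u = mon N f c i j :=
  units_eq hN u

/-- the formal curve `y = z = 0` with the parameter `x - 1` -/
def κA (N : ℕ) (f : Polynomial K) : OpenRing N f →ₐ[K] PowerSeries K :=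
  pt 0 (1 + PowerSeries.X) 0 (by
    rw [PowerSeries.isUnit_iff_constantCoeff]
    simp) (by simp)

theorem series_const {d : ℕ} {c c' : K} {B : PowerSeries K} (hd : 0 < d)
    (h : PowerSeries.C c * (1 + PowerSeries.X ^ d * B) = PowerSeries.C c') (hc : c ≠ 0) :
    c = c' ∧ B = 0 := by
  have h1 := congrArg PowerSeries.constantCoeff h
  rw [map_mul, map_add, map_mul, map_pow, PowerSeries.constantCoeff_X, zero_pow hd.ne', zero_mul,
    add_zero, map_one, mul_one, PowerSeries.constantCoeff_C, PowerSeries.constantCoeff_C] at h1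
  refine ⟨h1, ?_⟩
  rw [h1] at h
  have h2 : (PowerSeries.C c' : PowerSeries K) ≠ 0 := by
    intro h0
    apply hc
    rw [h1]
    exact PowerSeries.C_injective (h0.trans (map_zero _).symm)
  have h3 : (PowerSeries.C c' : PowerSeries K) * (PowerSeries.X ^ d * B) = 0 := by
    linear_combination h
  rcases mul_eq_zero.1 h3 with h4 | h4
  · exact absurd h4 h2
  · exact (mul_eq_zero.1 h4).resolve_left (pow_ne_zero _ PowerSeries.X_ne_zero)

/-- no relations between the monomials -/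
theorem mon_const [CharZero K] (hf1 : Polynomial.eval 1 f ≠ 0) {c c' : Kˣ} {i j : ℤ}
    (h : mon N f c i j = mon N f c' 0 0) : i = 0 ∧ j = 0 ∧ c = c' := by
  have hj : j = 0 ∧ c = c' := by
    have h1 := congrArg (fun u : (OpenRing N f)ˣ => ρA N f 1 (u : OpenRing N f)) h
    simp only [ρ_mon] at h1
    rw [one_zpow, one_zpow, mul_one, mul_one, zpow_zero, Units.val_one, mul_one] at h1
    obtain ⟨B, hB1, hB2⟩ := HU_zpow (N := N) (f := f) 1 j
    rw [hB1] at h1
    obtain ⟨h2, h3⟩ := series_const two_pos h1 c.ne_zero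
    rw [h3, map_zero] at hB2
    have h4 : (j : K) = 0 := by
      rcases mul_eq_zero.1 hB2.symm with h | h
      · exact h
      · exact absurd (pow_eq_zero_iff two_ne_zero |>.1 h) hf1
    exact ⟨by exact_mod_cast h4, Units.ext h2⟩
  obtain ⟨rfl, rfl⟩ := hj
  refine ⟨?_, rfl, rfl⟩
  have h1 : xU N f ^ i = 1 := by
    rw [mon, mon, zpow_zero, zpow_zero, mul_one, mul_one, mul_one] at h
    exact mul_eq_left.1 h
  have h2 := congrArg (Units.map (κA N f).toRingHom.toMonoidHom) h1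
  rw [map_zpow, map_one] at h2
  set U := Units.map (κA N f).toRingHom.toMonoidHom (xU N f) with hU
  have hUv : (U : PowerSeries K) = 1 + PowerSeries.X ^ 1 * 1 := by
    rw [pow_one, mul_one]
    exact pt_x _ _ _ _ _
  obtain ⟨B, hB1, hB2⟩ := series_zpow 1 one_pos U 1 1 hUv (map_one _) i
  rw [h2, Units.val_one] at hB1
  have h3 : (PowerSeries.X ^ 1 * B : PowerSeries K) = 0 := by linear_combination - hB1
  have h4 := (mul_eq_zero.1 h3).resolve_left (pow_ne_zero _ PowerSeries.X_ne_zero)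
  rw [h4, map_zero, mul_one] at hB2
  exact_mod_cast hB2.symm

theorem eval_one_ne (hf : IsCoprime f (Polynomial.X ^ N - 1)) {ζ : K} (hζ : ζ ^ N = 1) :
    Polynomial.eval ζ f ≠ 0 := by
  obtain ⟨u, v, h⟩ := hf
  intro h0
  have h1 := congrArg (Polynomial.eval ζ) h
  rw [Polynomial.eval_add, Polynomial.eval_mul, Polynomial.eval_mul, h0, mul_zero, zero_add,
    Polynomial.eval_sub, Polynomial.eval_pow, Polynomial.eval_X, hζ, Polynomial.eval_one, sub_self,
    mul_zero] at h1
  exact zero_ne_one h1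

section Iso

variable (φ : OpenRing N g ≃ₐ[K] OpenRing N f)

/-- the map on units -/
def uM (φ : OpenRing N g ≃ₐ[K] OpenRing N f) : (OpenRing N g)ˣ →* (OpenRing N f)ˣ :=
  Units.map φ.toAlgHom.toRingHom.toMonoidHom

theorem uM_val (u : (OpenRing N g)ˣ) : ((uM φ u : (OpenRing N f)ˣ) : OpenRing N f) = φ u := rfl

theorem uM_c (c : Kˣ) : uM φ (cU N g c) = cU N f c := Units.ext (φ.commutes _)

theorem uM_symm (u : (OpenRing N f)ˣ) : uM φ (uM φ.symm u) = u :=
  Units.ext (φ.apply_symm_apply _)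

/-- **The image of `x`.** -/
theorem x_image [CharZero K] (hN : N ≠ 0) (hf : IsCoprime f (Polynomial.X ^ N - 1))
    (hg : IsCoprime g (Polynomial.X ^ N - 1)) :
    ∃ (α : Kˣ) (p : ℤ), α ^ N = 1 ∧ uM φ (xU N g) = mon N f α p 0 := by
  obtain ⟨e, he⟩ := conj_deriv hN hf hg φ
  obtain ⟨α, p, r, hu⟩ := exists_mon hN (uM φ (xU N g))
  set u := uM φ (xU N g) with hudef
  have huv : (u : OpenRing N f) = φ (xA N g) := rfl
  have hA : δA N f (xA N f ^ N - 1) = 0 := by
    rw [map_sub, deriv_pow_zero _ δA_x, Derivation.map_one_eq_zero, sub_zero]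
  have hu0 : δA N f ((u : OpenRing N f) ^ N - 1) = 0 := by
    rw [map_sub, deriv_pow_zero _ (δA_unit u.isUnit), Derivation.map_one_eq_zero, sub_zero]
  have hW : δA N f (φ (zA N g)) = e * ((u : OpenRing N f) ^ N - 1) := by
    rw [he, δA_z, map_sub, map_pow, map_one, huv]
  have h0 : δA N f ((xA N f ^ N - 1) * φ (zA N g) -
      e * ((u : OpenRing N f) ^ N - 1) * zA N f) = 0 := by
    rw [map_sub, Derivation.leibniz, Derivation.leibniz, hA, hW, Derivation.leibniz, hu0,
      δA_unit e.isUnit, δA_z]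
    simp only [smul_eq_mul]
    ring
  have h1 := ker_fixed hN h0
  have h2 := congrArg (ρA N f 1) h1
  rw [ρ_ι] at h2
  have hρA : ρA N f 1 (xA N f ^ N - 1) = 0 := by
    rw [map_sub, map_pow, map_one, ρ_x, Units.val_one, map_one, one_pow, sub_self]
  have hρh : ρA N f 1 ((xA N f ^ N - 1) * φ (zA N g) -
      e * ((u : OpenRing N f) ^ N - 1) * zA N f) =
      - (ρA N f 1 (e * ((u : OpenRing N f) ^ N - 1)) * PowerSeries.X) := by
    rw [map_sub, map_mul, hρA, zero_mul, zero_sub, map_mul, ρ_z]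
  have hfix : negS K (ρA N f 1 (e * ((u : OpenRing N f) ^ N - 1))) =
      ρA N f 1 (e * ((u : OpenRing N f) ^ N - 1)) := by
    rw [← ρ_ι, map_mul, map_sub, map_pow, map_one, ιA_unit hN e.isUnit, ιA_unit hN u.isUnit]
  rw [hρh, map_neg, map_mul, hfix, negS_X] at h2
  set R := ρA N f 1 (e * ((u : OpenRing N f) ^ N - 1)) with hR
  have hcz : CharZero (PowerSeries K) :=
    charZero_of_injective_algebraMap (algebraMap K (PowerSeries K)).injective
  have h3 : (2 : PowerSeries K) * (R * PowerSeries.X) = 0 := by linear_combination h2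
  have h4 : R = 0 := by
    rcases mul_eq_zero.1 h3 with h | h
    · exact absurd h two_ne_zero
    · exact (mul_eq_zero.1 h).resolve_right PowerSeries.X_ne_zero
  have h5 : ρA N f 1 ((u : OpenRing N f) ^ N) = 1 := by
    rw [hR, map_mul] at h4
    have h6 : ρA N f 1 (e : OpenRing N f) ≠ 0 := (e.isUnit.map (ρA N f 1)).ne_zero
    have h7 := (mul_eq_zero.1 h4).resolve_left h6
    rw [map_sub, map_one, sub_eq_zero] at h7
    exact h7
  have h6 : mon N f (α ^ N) (p * N) (r * N) = u ^ N := by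
    rw [hu, mon_pow]
  have h7 : ρA N f 1 (mon N f (α ^ N) (p * N) (r * N) : (OpenRing N f)ˣ) = 1 := by
    rw [h6, Units.val_pow_eq_pow_val, h5]
  rw [ρ_mon, one_zpow, mul_one] at h7
  obtain ⟨B, hB1, hB2⟩ := HU_zpow (N := N) (f := f) 1 (r * N)
  rw [hB1] at h7
  have h8 : (1 : PowerSeries K) = PowerSeries.C 1 := (map_one _).symm
  obtain ⟨h9, h10⟩ := series_const two_pos (h7.trans h8) (α ^ N).ne_zero
  have hf1 : Polynomial.eval ((1 : Kˣ) : K) f ≠ 0 := eval_one_ne hf (by simp)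
  rw [h10, map_zero] at hB2
  have h11 : ((r * N : ℤ) : K) = 0 := by
    rcases mul_eq_zero.1 hB2.symm with h | h
    · exact h
    · exact absurd (pow_eq_zero_iff two_ne_zero |>.1 h) hf1
  have h12 : r * N = 0 := by exact_mod_cast h11
  have h13 : r = 0 := (mul_eq_zero.1 h12).resolve_right (by exact_mod_cast hN)
  refine ⟨α, p, Units.ext (by rw [h9]; simp), ?_⟩
  rw [hu, h13]

theorem uM_mon {α β : Kˣ} {p k l : ℤ} (hx : uM φ (xU N g) = mon N f α p 0)
    (hh' : uM φ (hU N g) = mon N f β k l) (c : Kˣ) (i j : ℤ) :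
    uM φ (mon N g c i j) = mon N f (c * α ^ i * β ^ j) (p * i + k * j) (l * j) := by
  rw [mon, map_mul, map_mul, map_zpow, map_zpow, uM_c, hx, hh', mon_zpow, mon_zpow]
  have h1 : cU N f c = mon N f c 0 0 := by
    rw [mon, zpow_zero, zpow_zero, mul_one, mul_one]
  rw [h1, mon_mul, mon_mul]
  congr 1 <;> ring

/-- `p` and `l` are equal to `1` or `-1` -/
theorem signs [CharZero K] (hN : N ≠ 0) (hf : IsCoprime f (Polynomial.X ^ N - 1))
    (hg : IsCoprime g (Polynomial.X ^ N - 1)) :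
    ∃ (α β : Kˣ) (p k l : ℤ), α ^ N = 1 ∧ (p = 1 ∨ p = -1) ∧ (l = 1 ∨ l = -1) ∧
      uM φ (xU N g) = mon N f α p 0 ∧ uM φ (hU N g) = mon N f β k l := by
  obtain ⟨α, p, hα, hx⟩ := x_image φ hN hf hg
  obtain ⟨α', p', hα', hx'⟩ := x_image φ.symm hN hg hf
  obtain ⟨β, k, l, hh'⟩ := exists_mon hN (uM φ (hU N g))
  obtain ⟨β', k', l', hh''⟩ := exists_mon hN (uM φ.symm (hU N f))
  have hf1 : Polynomial.eval 1 f ≠ 0 := eval_one_ne hf (one_pow N)
  have h1 : mon N f (α' * α ^ p' * β ^ (0 : ℤ)) (p * p' + k * 0) (l * 0) = mon N f 1 1 0 := by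
    rw [← uM_mon φ hx hh' α' p' 0, ← hx', uM_symm, mon, map_one, one_mul, zpow_one, zpow_zero,
      mul_one]
  have h2 : mon N f (β' * α ^ k' * β ^ l') (p * k' + k * l') (l * l') = mon N f 1 0 1 := by
    rw [← uM_mon φ hx hh' β' k' l', ← hh'', uM_symm, mon, map_one, one_mul, zpow_one, zpow_zero,
      one_mul]
  have h3 : mon N f (α' * α ^ p' * β ^ (0 : ℤ)) (p * p' + k * 0 - 1) (l * 0) = mon N f 1 0 0 := by
    have := congrArg (fun u => u * mon N f 1 (-1) 0) h1
    simp only [mon_mul] at this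
    refine Eq.trans (mon_eq (by rw [mul_one]) (by ring) (by ring)) (this.trans ?_)
    exact mon_eq (mul_one _) (by ring) (by ring)
  have h4 : mon N f (β' * α ^ k' * β ^ l') (p * k' + k * l') (l * l' - 1) = mon N f 1 0 0 := by
    have := congrArg (fun u => u * mon N f 1 0 (-1)) h2
    simp only [mon_mul] at this
    refine Eq.trans (mon_eq (by rw [mul_one]) (by ring) (by ring)) (this.trans ?_)
    exact mon_eq (mul_one _) (by ring) (by ring)
  have h5 := (mon_const hf1 h3).1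
  have h6 := (mon_const hf1 h4).2.1
  refine ⟨α, β, p, k, l, hα, ?_, ?_, hx, hh'⟩
  · exact Int.eq_one_or_neg_one_of_mul_eq_one (show p * p' = 1 by linarith)
  · exact Int.eq_one_or_neg_one_of_mul_eq_one (show l * l' = 1 by linarith)

end Iso

end

end Pool.Agent.KS6_5.TB
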