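import Pool.Agent.KS6_5.TB.Units

/-!
# Open subsets of the affine space of dimension three: the kernel of the derivation
-/

set_option autoImplicit false

namespace Pool.Agent.KS6_5.TB

open MvPolynomial Pool.Agent.H868R3

universe u v

variable {K : Type u} [Field K] {N : ℕ} {f : Polynomial K}

noncomputable section

/-- powers of units with few terms -/
theorem series_zpow (d : ℕ) (hd : 0 < d) (U : (PowerSeries K)ˣ) (A : PowerSeries K) (c : K)
    (hU : (U : PowerSeries K) = 1 + PowerSeries.X ^ d * A)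
    (hA : PowerSeries.constantCoeff A = c) (l : ℤ) :
    ∃ B : PowerSeries K, ((U ^ l : (PowerSeries K)ˣ) : PowerSeries K) =
      1 + PowerSeries.X ^ d * B ∧ PowerSeries.constantCoeff B = l * c := by
  have hXd : PowerSeries.constantCoeff ((PowerSeries.X : PowerSeries K) ^ d) = 0 := by
    rw [map_pow, PowerSeries.constantCoeff_X, zero_pow hd.ne']
  induction l using Int.induction_on with
  | zero => exact ⟨0, by simp, by simp⟩
  | succ i ih =>
    obtain ⟨B, h1, h2⟩ := ih
    refine ⟨B + A + PowerSeries.X ^ d * (A * B), ?_, ?_⟩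
    · rw [zpow_add_one, Units.val_mul, h1, hU]
      ring
    · rw [map_add, map_add, map_mul, h2, hA, hXd]
      push_cast
      ring
  | pred i ih =>
    obtain ⟨B, h1, h2⟩ := ih
    have h3 : ((U⁻¹ : (PowerSeries K)ˣ) : PowerSeries K) =
        1 + PowerSeries.X ^ d * (- (A * ((U⁻¹ : (PowerSeries K)ˣ) : PowerSeries K))) := by
      have h4 : (U : PowerSeries K) * ((U⁻¹ : (PowerSeries K)ˣ) : PowerSeries K) = 1 := U.mul_inv
      rw [hU] at h4
      linear_combination h4
    have h4 : PowerSeries.constantCoeff ((U⁻¹ : (PowerSeries K)ˣ) : PowerSeries K) = 1 := by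
      rw [h3, map_add, map_mul, hXd, map_one, zero_mul, add_zero]
    set V := ((U⁻¹ : (PowerSeries K)ˣ) : PowerSeries K) with hV
    refine ⟨B - A * V + PowerSeries.X ^ d * (- (A * V) * B), ?_, ?_⟩
    · rw [zpow_sub_one, Units.val_mul, h1, ← hV]
      nth_rewrite 1 [h3]
      ring
    · rw [map_add, map_sub, map_mul, map_mul, h2, hA, hXd, h4]
      push_cast
      ring

/-- the involution `z ↦ -z` -/
def ιA (N : ℕ) (f : Polynomial K) : OpenRing N f →ₐ[K] OpenRing N f :=
  pt (yA N f) (xA N f) (- zA N f) isUnit_xA (by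
    have h : 1 + (xA N f ^ N - 1) * yA N f + (Polynomial.aeval (xA N f) f * - zA N f) ^ 2 =
        hA N f := by
      rw [hA_eq]
      ring
    rw [h]
    exact isUnit_hA)

/-- the involution of the polynomial ring -/
def ιP : MvPolynomial (Fin 3) K →ₐ[K] MvPolynomial (Fin 3) K := aeval ![X 0, X 1, - X 2]

theorem ιP_0 : ιP (X 0 : MvPolynomial (Fin 3) K) = X 0 := by rw [ιP, aeval_X]; rfl
theorem ιP_1 : ιP (X 1 : MvPolynomial (Fin 3) K) = X 1 := by rw [ιP, aeval_X]; rfl
theorem ιP_2 : ιP (X 2 : MvPolynomial (Fin 3) K) = - X 2 := by rw [ιP, aeval_X]; rfl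

theorem ιA_y : ιA N f (yA N f) = yA N f := pt_y _ _ _ _ _
theorem ιA_x : ιA N f (xA N f) = xA N f := pt_x _ _ _ _ _
theorem ιA_z : ιA N f (zA N f) = - zA N f := pt_z _ _ _ _ _

theorem ιA_em (p : MvPolynomial (Fin 3) K) : ιA N f (em N f p) = em N f (ιP p) := by
  have h : (ιA N f).comp (em N f) = (em N f).comp ιP := by
    apply MvPolynomial.algHom_ext
    intro i
    fin_cases i
    · change ιA N f (yA N f) = em N f (ιP (X 0))
      rw [ιP_0, ιA_y]; rfl
    · change ιA N f (xA N f) = em N f (ιP (X 1))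
      rw [ιP_1, ιA_x]; rfl
    · change ιA N f (zA N f) = em N f (ιP (X 2))
      rw [ιP_2, ιA_z, map_neg]; rfl
  exact DFunLike.congr_fun h p

theorem ιP_aeval (g : Polynomial K) : ιP (Polynomial.aeval (X 1) g) =
    Polynomial.aeval (X 1 : MvPolynomial (Fin 3) K) g := by
  rw [← Polynomial.aeval_algHom_apply, ιP_1]

theorem δP_ιP (p : MvPolynomial (Fin 3) K) : δP N f (ιP p) = - ιP (δP N f p) := by
  have hX : ∀ i : Fin 3, δP N f (ιP (X i)) = - ιP (δP N f (X i)) := by
    intro i
    fin_cases i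
    · change δP N f (ιP (X 0)) = - ιP (δP N f (X 0))
      rw [ιP_0, δP_y, map_mul, map_mul, map_pow, ιP_aeval, ιP_2, map_neg, map_ofNat]
      ring
    · change δP N f (ιP (X 1)) = - ιP (δP N f (X 1))
      rw [ιP_1, δP_x, map_zero, neg_zero]
    · change δP N f (ιP (X 2)) = - ιP (δP N f (X 2))
      rw [ιP_2, map_neg, δP_z, map_sub, map_pow, ιP_1, map_one]
  induction p using MvPolynomial.induction_on with
  | C a =>
    have h1 : ιP (C a : MvPolynomial (Fin 3) K) = C a := ιP.commutes a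
    have h2 : δP N f (C a) = 0 := (δP N f).map_algebraMap a
    rw [h1, h2, map_zero, neg_zero]
  | add p q hp hq => rw [map_add, map_add, hp, hq, map_add, map_add, neg_add]
  | mul_X p i hp =>
    rw [map_mul, Derivation.leibniz, Derivation.leibniz, hp, hX i]
    simp only [smul_eq_mul, map_add, map_mul]
    ring

theorem z_dvd (p : MvPolynomial (Fin 3) K) : X 2 ∣ p - ιP p := by
  have hX : ∀ i : Fin 3, (X 2 : MvPolynomial (Fin 3) K) ∣ X i - ιP (X i) := by
    intro i
    fin_cases i
    · change (X 2 : MvPolynomial (Fin 3) K) ∣ X 0 - ιP (X 0)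
      rw [ιP_0, sub_self]
      exact dvd_zero _
    · change (X 2 : MvPolynomial (Fin 3) K) ∣ X 1 - ιP (X 1)
      rw [ιP_1, sub_self]
      exact dvd_zero _
    · change (X 2 : MvPolynomial (Fin 3) K) ∣ X 2 - ιP (X 2)
      rw [ιP_2]
      exact ⟨2, by ring⟩
  induction p using MvPolynomial.induction_on with
  | C a =>
    have h1 : ιP (C a : MvPolynomial (Fin 3) K) = C a := ιP.commutes a
    rw [h1, sub_self]
    exact dvd_zero _
  | add p q hp hq =>
    have : p + q - ιP (p + q) = (p - ιP p) + (q - ιP q) := by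
      rw [map_add]; ring
    rw [this]
    exact dvd_add hp hq
  | mul_X p i hp =>
    have : p * X i - ιP (p * X i) = (p - ιP p) * X i + ιP p * (X i - ιP (X i)) := by
      rw [map_mul]; ring
    rw [this]
    exact dvd_add (Dvd.dvd.mul_right hp _) (Dvd.dvd.mul_left (hX i) _)

theorem z_not_dvd (hN : N ≠ 0) : ¬ (X 2 : MvPolynomial (Fin 3) K) ∣ X 1 ^ N - 1 := by
  rintro ⟨q, hq⟩
  have h1 := congrArg (aeval (![0, 0, 0] : Fin 3 → K)) hq
  rw [map_sub, map_pow, aeval_X, map_one, map_mul, aeval_X] at h1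
  simp [hN] at h1

theorem x_not_dvd (hN : N ≠ 0) : ¬ (X 1 : MvPolynomial (Fin 3) K) ∣ X 1 ^ N - 1 := by
  rintro ⟨q, hq⟩
  have h1 := congrArg (aeval (![0, 0, 0] : Fin 3 → K)) hq
  rw [map_sub, map_pow, aeval_X, map_one, map_mul, aeval_X] at h1
  simp [hN] at h1

/-- the kernel in the polynomial ring is fixed by the involution -/
theorem kerP_fixed [CharZero K] (hN : N ≠ 0) {p : MvPolynomial (Fin 3) K} (hp : δP N f p = 0) :
    ιP p = p := by
  by_contra hne
  set b := p - ιP p with hb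
  have hb0 : b ≠ 0 := by
    intro h
    exact hne (sub_eq_zero.1 h).symm
  have hδb : δP N f b = 0 := by
    rw [hb, map_sub, δP_ιP, hp, map_zero, neg_zero, sub_zero]
  have hprime : Prime (X 2 : MvPolynomial (Fin 3) K) := X_prime
  obtain ⟨n, c, hc, hbc⟩ := WfDvdMonoid.max_power_factor hb0 hprime.irreducible
  have hn : n ≠ 0 := by
    rintro rfl
    rw [pow_zero, one_mul] at hbc
    exact hc (hbc ▸ z_dvd p)
  obtain ⟨k, rfl⟩ := Nat.exists_eq_succ_of_ne_zero hn
  have h1 : (X 2 : MvPolynomial (Fin 3) K) ^ k *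
      (((k + 1 : ℕ) : MvPolynomial (Fin 3) K) * ((X 1 ^ N - 1) * c) + X 2 * δP N f c) = 0 := by
    rw [hbc, Derivation.leibniz, Derivation.leibniz_pow, δP_z] at hδb
    simp only [smul_eq_mul, nsmul_eq_mul, Nat.succ_eq_add_one, Nat.add_sub_cancel] at hδb
    rw [← hδb]
    ring
  have h2 := (mul_eq_zero.1 h1).resolve_left (pow_ne_zero _ hprime.ne_zero)
  have h3 : (X 2 : MvPolynomial (Fin 3) K) ∣
      ((k + 1 : ℕ) : MvPolynomial (Fin 3) K) * ((X 1 ^ N - 1) * c) :=
    ⟨- δP N f c, by linear_combination h2⟩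
  rcases hprime.dvd_or_dvd h3 with h | h
  · obtain ⟨q, hq⟩ := h
    have h4 := congrArg (aeval (![0, 0, 0] : Fin 3 → K)) hq
    rw [map_natCast, map_mul, aeval_X] at h4
    simp at h4
    exact Nat.cast_add_one_ne_zero k h4
  · rcases hprime.dvd_or_dvd h with h | h
    · exact z_not_dvd hN h
    · exact hc h

/-- **The kernel of the derivation is fixed by the involution.** -/
theorem ker_fixed [CharZero K] (hN : N ≠ 0) {a : OpenRing N f} (ha : δA N f a = 0) :
    ιA N f a = a := by
  obtain ⟨n, p, h⟩ := exists_rep a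
  have h1 : δA N f (em N f p) = 0 := by
    rw [← h, Derivation.leibniz, ha, deriv_pow_zero _ δA_s, smul_zero, smul_zero, add_zero]
  rw [δA_em] at h1
  have h2 : δP N f p = 0 := em_injective (h1.trans (map_zero _).symm)
  have h3 := kerP_fixed hN h2
  have hs : ιP (X 1 * hh N f) = X 1 * hh N f := by
    rw [map_mul, ιP_1, map_hh, ιP_0, ιP_1, ιP_2, hh]
    ring
  have h4 := congrArg (ιA N f) h
  rw [map_mul, map_pow, ιA_em, ιA_em, hs, h3, ← h] at h4
  exact mul_right_cancel₀ (pow_ne_zero _ isUnit_s.ne_zero) h4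

end

end Pool.Agent.KS6_5.TB
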