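import Mathlib
import Pool.Graph.R_seed8.H868R3.TBTypeB

/-!
# Locally nilpotent derivations: units, and a criterion for type B
-/

set_option autoImplicit false

namespace Pool.Agent.KS6_5.TB

open Polynomial Pool.Agent.H868R3

universe u v

section General

variable {K : Type u} {A : Type v} [Field K] [CommRing A] [Algebra K A]

theorem iter_add (D : Derivation K A A) (n : ℕ) (a b : A) :
    (⇑D)^[n] (a + b) = (⇑D)^[n] a + (⇑D)^[n] b := iterate_map_add D n a b

/-- the formula of Leibniz for the top iterates -/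
theorem iter_mul (D : Derivation K A A) (N : ℕ) : ∀ (m n : ℕ), m + n = N → ∀ (a b : A),
    (⇑D)^[m + 1] a = 0 → (⇑D)^[n + 1] b = 0 →
    (⇑D)^[N] (a * b) = (N.choose m : A) * ((⇑D)^[m] a * (⇑D)^[n] b) ∧
      (⇑D)^[N + 1] (a * b) = 0 := by
  induction N with
  | zero =>
    intro m n hmn a b ha hb
    obtain ⟨rfl, rfl⟩ : m = 0 ∧ n = 0 := by omega
    simp only [zero_add, Function.iterate_one, Function.iterate_zero, id_eq] at *
    refine ⟨by simp, ?_⟩
    rw [D.leibniz, ha, hb]
    simp
  | succ N ih =>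
    intro m n hmn a b ha hb
    have key : ∀ M, (⇑D)^[M + 1] (a * b) = (⇑D)^[M] (a * D b) + (⇑D)^[M] (D a * b) := by
      intro M
      rw [Function.iterate_succ_apply, D.leibniz, smul_eq_mul, smul_eq_mul, iter_add, mul_comm b]
    have h1 : (⇑D)^[N] (a * D b) = (N.choose m : A) * ((⇑D)^[m] a * (⇑D)^[n] b) ∧
        (⇑D)^[N + 1] (a * D b) = 0 := by
      rcases n with _ | n
      · have hb' : D b = 0 := by simpa using hb
        rw [hb', mul_zero]
        have h0 : N.choose m = 0 := Nat.choose_eq_zero_of_lt (by omega)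
        rw [h0]
        exact ⟨by rw [iterate_map_zero]; simp, iterate_map_zero _ _⟩
      · obtain ⟨h2, h3⟩ := ih m n (by omega) a (D b) ha (by
          rw [← Function.iterate_succ_apply]
          exact hb)
        exact ⟨by rw [h2, ← Function.iterate_succ_apply], h3⟩
    have h2 : (⇑D)^[N] (D a * b) = ((N.choose (m - 1) : ℕ) * (if m = 0 then 0 else 1) : A) *
          ((⇑D)^[m] a * (⇑D)^[n] b) ∧
        (⇑D)^[N + 1] (D a * b) = 0 := by
      rcases m with _ | m
      · have ha' : D a = 0 := by simpa using ha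
        rw [ha', zero_mul]
        exact ⟨by rw [iterate_map_zero]; simp, iterate_map_zero _ _⟩
      · obtain ⟨h2, h3⟩ := ih m n (by omega) (D a) b (by
          rw [← Function.iterate_succ_apply]
          exact ha) hb
        refine ⟨?_, h3⟩
        rw [h2, ← Function.iterate_succ_apply]
        simp
    refine ⟨?_, ?_⟩
    · rw [key, h1.1, h2.1]
      rcases m with _ | m
      · simp
      · rw [Nat.choose_succ_succ]
        push_cast
        simp only [mul_one]
        ring
    · rw [key, h1.2, h2.2, add_zero]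

theorem exists_top (D : Derivation K A A) {a : A} (ha : a ≠ 0) (h : ∃ n, (⇑D)^[n] a = 0) :
    ∃ m, (⇑D)^[m] a ≠ 0 ∧ (⇑D)^[m + 1] a = 0 := by
  classical
  obtain ⟨m, hm⟩ : ∃ m, Nat.find h = m + 1 := by
    refine Nat.exists_eq_succ_of_ne_zero fun h0 => ha ?_
    have := Nat.find_spec h
    rwa [h0] at this
  refine ⟨m, Nat.find_min h (by omega), ?_⟩
  rw [← hm]
  exact Nat.find_spec h

/-- locally nilpotent derivations of domains of characteristic zero vanish on units -/
theorem lnd_unit [CharZero K] [IsDomain A] (D : Derivation K A A) (hD : IsLND D) {e : A}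
    (he : IsUnit e) : D e = 0 := by
  have hcz : CharZero A := charZero_of_injective_algebraMap (algebraMap K A).injective
  obtain ⟨e', h⟩ := he.exists_right_inv
  have he0 : e ≠ 0 := he.ne_zero
  have he0' : e' ≠ 0 := by
    rintro rfl
    rw [mul_zero] at h
    exact zero_ne_one h
  obtain ⟨m, hm1, hm2⟩ := exists_top D he0 (hD e)
  obtain ⟨n, hn1, hn2⟩ := exists_top D he0' (hD e')
  have h1 := (iter_mul D (m + n) m n rfl e e' hm2 hn2).1
  rw [h] at h1
  rcases Nat.eq_zero_or_pos (m + n) with h0 | h0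
  · obtain ⟨rfl, rfl⟩ : m = 0 ∧ n = 0 := by omega
    simpa using hm2
  · exfalso
    obtain ⟨M, hM⟩ := Nat.exists_eq_succ_of_ne_zero h0.ne'
    have h2 : (⇑D)^[m + n] (1 : A) = 0 := by
      rw [hM, Function.iterate_succ_apply, D.map_one_eq_zero, iterate_map_zero]
    rw [h2] at h1
    have h3 : ((m + n).choose m : A) ≠ 0 :=
      Nat.cast_ne_zero.2 (Nat.choose_pos (Nat.le_add_right m n)).ne'
    exact mul_ne_zero h3 (mul_ne_zero hm1 hn1) h1.symm

/-- the subalgebra of the elements killed by some iterate -/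
def nilAlg (D : Derivation K A A) : Subalgebra K A where
  carrier := {a | ∃ n : ℕ, (⇑D)^[n] a = 0}
  mul_mem' := by
    rintro a b ⟨m, hm⟩ ⟨n, hn⟩
    have hm' : (⇑D)^[m + 1] a = 0 := by
      rw [Function.iterate_succ_apply', hm, map_zero]
    have hn' : (⇑D)^[n + 1] b = 0 := by
      rw [Function.iterate_succ_apply', hn, map_zero]
    exact ⟨m + n + 1, (iter_mul D (m + n) m n rfl a b hm' hn').2⟩
  add_mem' := by
    rintro a b ⟨m, hm⟩ ⟨n, hn⟩
    refine ⟨m + n, ?_⟩
    rw [iter_add, Function.iterate_add_apply (⇑D) m n b, hn, iterate_map_zero, add_comm m n,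
      Function.iterate_add_apply, hm, iterate_map_zero, add_zero]
  algebraMap_mem' r := ⟨1, by simp⟩

theorem mem_nilAlg {D : Derivation K A A} {a : A} : a ∈ nilAlg D ↔ ∃ n : ℕ, (⇑D)^[n] a = 0 :=
  Iff.rfl

end General

section Criterion

variable {K : Type u} {A : Type v} [Field K] [CommRing A] [Algebra K A]

/-- two iterates -/
theorem exists_pair (δ : Derivation K A A) (hδ : IsLND δ) (h0 : δ ≠ 0) :
    ∃ α β : A, δ α = β ∧ δ β = 0 ∧ β ≠ 0 := by
  obtain ⟨a, ha⟩ : ∃ a, δ a ≠ 0 := by
    by_contra h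
    push Not at h
    exact h0 (Derivation.ext h)
  obtain ⟨m, hm1, hm2⟩ := exists_top δ ha (hδ _)
  refine ⟨(⇑δ)^[m] a, (⇑δ)^[m + 1] a, ?_, ?_, ?_⟩
  · rw [Function.iterate_succ_apply']
  · rw [← Function.iterate_succ_apply' (⇑δ), Function.iterate_succ_apply]
    exact hm2
  · rw [Function.iterate_succ_apply]
    exact hm1

end Criterion

section Criterion2

variable {K A : Type u} [Field K] [CommRing A] [Algebra K A]

/-- **A criterion for type B.** -/
theorem typeB_of [CharZero K] [IsDomain A] [IsNoetherianRing A] {B : Type u} [CommRing B]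
    [IsDomain B] [Algebra K B] (ev : A →ₐ[K] B)
    (hev : ∀ D : Derivation K A[X] A[X], IsLND D → (∃ s, D s = 1) →
      ∀ a : A, mapAlgHom ev (D (C a)) = 0)
    (δ : Derivation K A A) (hδ : IsLND δ) (h0 : δ ≠ 0) : IsTypeB K A := by
  have hcz : CharZero B := charZero_of_injective_algebraMap (algebraMap K B).injective
  have key : ∀ D : Derivation K A[X] A[X], IsLND D → (∃ s, D s = 1) → ∀ G : A[X],
      mapAlgHom ev (D G) = derivative (mapAlgHom ev G) * mapAlgHom ev (D X) := by
    intro D hD hs G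
    induction G using Polynomial.induction_on' with
    | add p q hp hq =>
      rw [map_add, map_add, map_add, hp, hq, map_add, add_mul]
    | monomial n a =>
      rw [← C_mul_X_pow_eq_monomial, D.leibniz, smul_eq_mul, smul_eq_mul, map_add, map_mul,
        map_mul, hev D hD hs a, mul_zero, add_zero, D.leibniz_pow, nsmul_eq_mul, smul_eq_mul,
        map_mul, map_mul, map_mul, map_natCast, map_pow]
      simp only [coe_mapAlgHom, Polynomial.map_mul, Polynomial.map_pow, map_C, map_X,
        RingHom.coe_coe, derivative_C_mul, derivative_X_pow]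
      simp only [map_natCast]
      ring
  have hH : ∀ F ∈ HDStar K A[X], ∀ n, F.coeff (n + 1) ∈ RingHom.ker (ev : A →+* B) := by
    have h1 : HDStar K A[X] ≤ ((CAlgHom : B →ₐ[B] B[X]).restrictScalars K).range.comap
        (mapAlgHom ev) := by
      apply Algebra.adjoin_le
      rintro G ⟨D, hD, ⟨s, hs⟩, hG⟩
      have h2 := key D hD ⟨s, hs⟩ s
      rw [hs, map_one] at h2
      have h3 : mapAlgHom ev (D X) ≠ 0 := by
        intro h
        rw [h, mul_zero] at h2
        exact one_ne_zero h2
      have h4 := key D hD ⟨s, hs⟩ G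
      rw [hG, map_zero] at h4
      have h5 := (mul_eq_zero.1 h4.symm).resolve_right h3
      have h6 := derivative_eq_zero.1 h5
      rw [SetLike.mem_coe, Subalgebra.mem_comap, eq_C_of_natDegree_eq_zero h6]
      exact ⟨_, rfl⟩
    intro F hF n
    obtain ⟨b, hb⟩ := h1 hF
    rw [RingHom.mem_ker]
    have h2 := congrArg (fun P : B[X] => P.coeff (n + 1)) hb
    change (C b).coeff (n + 1) = (mapAlgHom ev F).coeff (n + 1) at h2
    rw [coeff_C_succ] at h2
    rw [h2]
    simp
  have hm : RingHom.ker (ev : A →+* B) ≠ ⊤ := RingHom.ker_ne_top _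
  obtain ⟨α, β, h1, h2, h3⟩ := exists_pair δ hδ h0
  refine ⟨?_, not_fg_of _ hm hH δ hδ α β h1 h2 h3⟩
  intro htop
  have h4 : (X : A[X]) ∈ HDStar K A[X] := by rw [htop]; trivial
  have h5 := hH X h4 0
  rw [zero_add, coeff_X_one] at h5
  exact hm ((Ideal.eq_top_iff_one _).2 h5)

end Criterion2

end Pool.Agent.KS6_5.TB
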