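import Pool.Agent.KS6_5.TB.Lnd
import Pool.Agent.KS6_5.TB.Defs

/-!
# Open subsets of the affine space of dimension three: the rings and their maps
-/

set_option autoImplicit false

namespace Pool.Agent.KS6_5.TB

open MvPolynomial Pool.Agent.H868R3

universe u v

variable {K : Type u} [Field K] {N : ℕ} {f : Polynomial K}

noncomputable section

/-- the image of a polynomial -/
abbrev em (N : ℕ) (f : Polynomial K) : MvPolynomial (Fin 3) K →ₐ[K] OpenRing N f :=
  IsScalarTower.toAlgHom K _ _

theorem em_inj (hh0 : (X 1 * hh N f : MvPolynomial (Fin 3) K) ≠ 0) :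
    Function.Injective (em N f) :=
  IsLocalization.injective (OpenRing N f) (M := Submonoid.powers (X 1 * hh N f))
    (powers_le_nonZeroDivisors_of_noZeroDivisors hh0)

theorem hh_ne_zero (N : ℕ) (f : Polynomial K) : hh N f ≠ 0 := by
  intro h
  have h1 := congrArg (aeval (![0, 0, 0] : Fin 3 → K)) h
  simp [hh] at h1

theorem s_ne_zero (N : ℕ) (f : Polynomial K) :
    (X 1 * hh N f : MvPolynomial (Fin 3) K) ≠ 0 :=
  mul_ne_zero (X_ne_zero _) (hh_ne_zero N f)

instance : IsDomain (OpenRing N f) :=
  IsLocalization.isDomain_localization (powers_le_nonZeroDivisors_of_noZeroDivisors (s_ne_zero N f))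

instance : IsNoetherianRing (OpenRing N f) :=
  IsLocalization.isNoetherianRing (Submonoid.powers (X 1 * hh N f)) _ inferInstance

theorem em_injective : Function.Injective (em N f) := em_inj (s_ne_zero N f)

/-- the coordinates -/
def yA (N : ℕ) (f : Polynomial K) : OpenRing N f := em N f (X 0)
/-- the coordinates -/
def xA (N : ℕ) (f : Polynomial K) : OpenRing N f := em N f (X 1)
/-- the coordinates -/
def zA (N : ℕ) (f : Polynomial K) : OpenRing N f := em N f (X 2)
/-- the function `h` -/
def hA (N : ℕ) (f : Polynomial K) : OpenRing N f := em N f (hh N f)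

theorem map_hh {B : Type v} [CommRing B] [Algebra K B] (φ : MvPolynomial (Fin 3) K →ₐ[K] B) :
    φ (hh N f) = 1 + (φ (X 1) ^ N - 1) * φ (X 0) + (Polynomial.aeval (φ (X 1)) f * φ (X 2)) ^ 2 := by
  rw [hh, map_add, map_add, map_mul, map_pow, map_mul, map_one, map_sub, map_pow, map_one,
    Polynomial.aeval_algHom_apply]

theorem hA_eq : hA N f = 1 + (xA N f ^ N - 1) * yA N f +
    (Polynomial.aeval (xA N f) f * zA N f) ^ 2 := map_hh _

theorem isUnit_s : IsUnit (em N f (X 1 * hh N f)) :=
  IsLocalization.Away.algebraMap_isUnit (X 1 * hh N f)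

theorem isUnit_xA : IsUnit (xA N f) := by
  have h := isUnit_s (N := N) (f := f)
  rw [map_mul] at h
  exact isUnit_of_mul_isUnit_left h

theorem isUnit_hA : IsUnit (hA N f) := by
  have h := isUnit_s (N := N) (f := f)
  rw [map_mul] at h
  exact isUnit_of_mul_isUnit_right h

theorem exists_rep (a : OpenRing N f) : ∃ (n : ℕ) (p : MvPolynomial (Fin 3) K),
    a * (em N f (X 1 * hh N f)) ^ n = em N f p := by
  obtain ⟨n, p, h⟩ := IsLocalization.Away.surj (X 1 * hh N f) a
  exact ⟨n, p, h⟩

/-- the homomorphism given by a point with values in `B` -/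
def pt {B : Type v} [CommRing B] [Algebra K B] (y x z : B) (hx : IsUnit x)
    (hu : IsUnit (1 + (x ^ N - 1) * y + (Polynomial.aeval x f * z) ^ 2)) : OpenRing N f →ₐ[K] B :=
  IsLocalization.liftAlgHom (M := Submonoid.powers (X 1 * hh N f))
    (f := (aeval ![y, x, z] : MvPolynomial (Fin 3) K →ₐ[K] B)) (by
      rintro ⟨_, n, rfl⟩
      change IsUnit (aeval ![y, x, z] ((X 1 * hh N f) ^ n))
      rw [map_pow, map_mul, map_hh]
      simp only [aeval_X]
      exact (hx.mul hu).pow n)

section pt

variable {B : Type v} [CommRing B] [Algebra K B] (y x z : B) (hx : IsUnit x)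
    (hu : IsUnit (1 + (x ^ N - 1) * y + (Polynomial.aeval x f * z) ^ 2))

theorem pt_em (p : MvPolynomial (Fin 3) K) :
    pt (f := f) y x z hx hu (em N f p) = aeval ![y, x, z] p := by
  change IsLocalization.lift _ (algebraMap _ _ p) = _
  rw [IsLocalization.lift_eq]
  rfl

@[simp] theorem pt_y : pt (f := f) y x z hx hu (yA N f) = y := by
  rw [yA, pt_em, aeval_X]; rfl

@[simp] theorem pt_x : pt (f := f) y x z hx hu (xA N f) = x := by
  rw [xA, pt_em, aeval_X]; rfl

@[simp] theorem pt_z : pt (f := f) y x z hx hu (zA N f) = z := by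
  rw [zA, pt_em, aeval_X]; rfl

theorem pt_h : pt (f := f) y x z hx hu (hA N f) =
    1 + (x ^ N - 1) * y + (Polynomial.aeval x f * z) ^ 2 := by
  rw [hA_eq, map_add, map_add, map_mul, map_pow, map_mul, map_one, map_sub, map_pow, map_one,
    ← Polynomial.aeval_algHom_apply, pt_x, pt_y, pt_z]

end pt

/-- homomorphisms are determined by the images of the coordinates -/
theorem hom_ext {B : Type v} [CommRing B] [Algebra K B] {φ ψ : OpenRing N f →ₐ[K] B}
    (hy : φ (yA N f) = ψ (yA N f)) (hx : φ (xA N f) = ψ (xA N f)) (hz : φ (zA N f) = ψ (zA N f)) :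
    φ = ψ := by
  apply IsLocalization.algHom_ext (Submonoid.powers (X 1 * hh N f))
  apply MvPolynomial.algHom_ext
  intro i
  fin_cases i
  · exact hy
  · exact hx
  · exact hz

/-- the derivation of the polynomial ring -/
def δP (N : ℕ) (f : Polynomial K) :
    Derivation K (MvPolynomial (Fin 3) K) (MvPolynomial (Fin 3) K) :=
  mkDerivation K ![- 2 * Polynomial.aeval (X 1) f ^ 2 * X 2, 0, X 1 ^ N - 1]

theorem δP_aeval (g : Polynomial K) : δP N f (Polynomial.aeval (X 1) g) = 0 := by
  rw [Derivation.map_aeval, δP, mkDerivation_X]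
  simp

theorem δP_x : δP N f (X 1) = 0 := by rw [δP, mkDerivation_X]; rfl
theorem δP_y : δP N f (X 0) = - 2 * Polynomial.aeval (X 1) f ^ 2 * X 2 := by
  rw [δP, mkDerivation_X]; rfl
theorem δP_z : δP N f (X 2) = X 1 ^ N - 1 := by rw [δP, mkDerivation_X]; rfl

theorem δP_pow : δP N f (X 1 ^ N - 1) = 0 := by
  rw [map_sub, Derivation.leibniz_pow, δP_x, Derivation.map_one_eq_zero]
  simp

theorem δP_hh : δP N f (hh N f) = 0 := by
  rw [hh, map_add, map_add, Derivation.map_one_eq_zero, Derivation.leibniz, δP_pow, δP_y,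
    Derivation.leibniz_pow, Derivation.leibniz, δP_aeval, δP_z]
  simp only [smul_eq_mul, nsmul_eq_mul]
  push_cast
  ring

/-- extension of a derivation to the localization -/
theorem exists_ext (D : Derivation K (MvPolynomial (Fin 3) K) (MvPolynomial (Fin 3) K)) :
    ∃ D' : Derivation K (OpenRing N f) (OpenRing N f), ∀ p, D' (em N f p) = em N f (D p) := by
  let Φ : MvPolynomial (Fin 3) K →ₐ[K] TrivSqZeroExt (OpenRing N f) (OpenRing N f) :=
    { toFun := fun p => TrivSqZeroExt.inl (em N f p) + TrivSqZeroExt.inr (em N f (D p))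
      map_one' := by
        rw [map_one, Derivation.map_one_eq_zero, map_zero, TrivSqZeroExt.inl_one,
          TrivSqZeroExt.inr_zero, add_zero]
      map_mul' := fun p q => by
        rw [map_mul, Derivation.leibniz, map_add, smul_eq_mul, smul_eq_mul, map_mul, map_mul]
        generalize em N f p = p1
        generalize em N f q = q1
        generalize em N f (D p) = p2
        generalize em N f (D q) = q2
        apply TrivSqZeroExt.ext
        · simp
        · simp only [TrivSqZeroExt.snd_add, TrivSqZeroExt.snd_inl, TrivSqZeroExt.snd_inr,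
            TrivSqZeroExt.snd_mul, TrivSqZeroExt.fst_add, TrivSqZeroExt.fst_inl,
            TrivSqZeroExt.fst_inr, smul_eq_mul, MulOpposite.smul_eq_mul_unop,
            MulOpposite.unop_op]
          ring
      map_zero' := by
        rw [map_zero, map_zero, map_zero, TrivSqZeroExt.inl_zero, TrivSqZeroExt.inr_zero,
          add_zero]
      map_add' := fun p q => by
        rw [map_add, map_add, map_add, TrivSqZeroExt.inl_add, TrivSqZeroExt.inr_add]
        abel
      commutes' := fun r => by
        rw [Derivation.map_algebraMap, map_zero, TrivSqZeroExt.inr_zero, add_zero,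
          AlgHom.commutes]
        rfl }
  have hΦ : ∀ y : Submonoid.powers (X 1 * hh N f : MvPolynomial (Fin 3) K), IsUnit (Φ y) := by
    rintro ⟨_, n, rfl⟩
    change IsUnit (Φ ((X 1 * hh N f) ^ n))
    rw [map_pow]
    refine IsUnit.pow n ?_
    rw [TrivSqZeroExt.isUnit_iff_isUnit_fst]
    have h1 : (Φ (X 1 * hh N f)).fst = em N f (X 1 * hh N f) := by
      change (TrivSqZeroExt.inl (em N f (X 1 * hh N f)) +
        TrivSqZeroExt.inr (em N f (D (X 1 * hh N f))) :
          TrivSqZeroExt (OpenRing N f) (OpenRing N f)).fst = _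
      rw [TrivSqZeroExt.fst_add, TrivSqZeroExt.fst_inl, TrivSqZeroExt.fst_inr, add_zero]
    rw [h1]
    exact isUnit_s
  let L : OpenRing N f →ₐ[K] TrivSqZeroExt (OpenRing N f) (OpenRing N f) :=
    IsLocalization.liftAlgHom (M := Submonoid.powers (X 1 * hh N f)) hΦ
  have hL : ∀ p, L (em N f p) = TrivSqZeroExt.inl (em N f p) + TrivSqZeroExt.inr (em N f (D p)) := by
    intro p
    change IsLocalization.lift _ (algebraMap _ _ p) = _
    rw [IsLocalization.lift_eq]
    rfl
  have hfst : ∀ a, (L a).fst = a := by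
    have h1 : (TrivSqZeroExt.fstHom K (OpenRing N f) (OpenRing N f)).comp L =
        AlgHom.id K (OpenRing N f) := by
      apply hom_ext <;>
      · rw [AlgHom.comp_apply]
        first
          | rw [yA, hL]
          | rw [xA, hL]
          | rw [zA, hL]
        simp
    intro a
    exact DFunLike.congr_fun h1 a
  refine ⟨Derivation.mk' ((TrivSqZeroExt.sndHom (OpenRing N f) (OpenRing N f)).restrictScalars K ∘ₗ
    L.toLinearMap) ?_, ?_⟩
  · intro a b
    change (L (a * b)).snd = a • (L b).snd + b • (L a).snd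
    rw [map_mul, TrivSqZeroExt.snd_mul, hfst, hfst]
    simp only [smul_eq_mul, MulOpposite.smul_eq_mul_unop, MulOpposite.unop_op]
    ring
  · intro p
    change (L (em N f p)).snd = _
    rw [hL, TrivSqZeroExt.snd_add, TrivSqZeroExt.snd_inl, TrivSqZeroExt.snd_inr, zero_add]

end

end Pool.Agent.KS6_5.TB
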