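import Pool.Agent.KS6_5.TB.Ring

/-!
# Open subsets of the affine space of dimension three: they are of type B
-/

set_option autoImplicit false

namespace Pool.Agent.KS6_5.TB

open MvPolynomial Pool.Agent.H868R3

universe u v

variable {K : Type u} [Field K] {N : ℕ} {f : Polynomial K}

noncomputable section

/-- the derivation -/
def δA (N : ℕ) (f : Polynomial K) : Derivation K (OpenRing N f) (OpenRing N f) :=
  (exists_ext (N := N) (f := f) (δP N f)).choose

theorem δA_em (p : MvPolynomial (Fin 3) K) : δA N f (em N f p) = em N f (δP N f p) :=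
  (exists_ext (N := N) (f := f) (δP N f)).choose_spec p

theorem em_aeval (g : Polynomial K) : em N f (Polynomial.aeval (X 1) g) =
    Polynomial.aeval (xA N f) g := by
  rw [xA, Polynomial.aeval_algHom_apply]

theorem δA_x : δA N f (xA N f) = 0 := by rw [xA, δA_em, δP_x, map_zero]
theorem δA_z : δA N f (zA N f) = xA N f ^ N - 1 := by
  rw [zA, δA_em, δP_z, map_sub, map_pow, map_one, xA]
theorem δA_y : δA N f (yA N f) = - 2 * Polynomial.aeval (xA N f) f ^ 2 * zA N f := by
  rw [yA, δA_em, δP_y, map_mul, map_mul, map_pow, em_aeval, map_neg, map_ofNat, zA]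
theorem δA_h : δA N f (hA N f) = 0 := by rw [hA, δA_em, δP_hh, map_zero]
theorem δA_s : δA N f (em N f (X 1 * hh N f)) = 0 := by
  rw [map_mul, Derivation.leibniz]
  change xA N f • δA N f (hA N f) + hA N f • δA N f (xA N f) = 0
  rw [δA_x, δA_h, smul_zero, smul_zero, add_zero]

/-- a derivation killing `e` kills its inverse -/
theorem deriv_inv {A : Type v} [CommRing A] [Algebra K A] (D : Derivation K A A) {e e' : A}
    (h : e * e' = 1) (he : D e = 0) : D e' = 0 := by
  have h1 := congrArg D h
  rw [Derivation.leibniz, he, smul_zero, add_zero, Derivation.map_one_eq_zero, smul_eq_mul] at h1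
  have h2 : e' * (e * D e') = 0 := by rw [h1, mul_zero]
  rwa [← mul_assoc, mul_comm e' e, h, one_mul] at h2

theorem deriv_pow_zero {A : Type v} [CommRing A] [Algebra K A] (D : Derivation K A A) {e : A}
    (he : D e = 0) (n : ℕ) : D (e ^ n) = 0 := by
  rw [Derivation.leibniz_pow, he, smul_zero, smul_zero]

theorem xpow_ne_zero (hN : N ≠ 0) : (X 1 ^ N - 1 : MvPolynomial (Fin 3) K) ≠ 0 := by
  intro h
  have h1 := congrArg (aeval (![0, 0, 0] : Fin 3 → K)) h
  rw [map_sub, map_pow, aeval_X, map_one, map_zero] at h1
  simp [hN] at h1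

theorem δA_ne_zero (hN : N ≠ 0) : δA N f ≠ 0 := by
  intro h
  have h1 := DFunLike.congr_fun h (zA N f)
  rw [δA_z, Derivation.zero_apply] at h1
  have h2 : em N f (X 1 ^ N - 1) = em N f 0 := by
    rw [map_sub, map_pow, map_one, map_zero]
    exact h1
  exact xpow_ne_zero hN (em_injective h2)

theorem δA_lnd : IsLND (δA N f) := by
  have hx : xA N f ∈ nilAlg (δA N f) := ⟨1, by simp [δA_x]⟩
  have hF : ∀ g : Polynomial K, δA N f (Polynomial.aeval (xA N f) g) = 0 := by
    intro g
    rw [Derivation.map_aeval, δA_x, smul_zero]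
  have hpow : δA N f (xA N f ^ N - 1) = 0 := by
    rw [map_sub, Derivation.leibniz_pow, δA_x, Derivation.map_one_eq_zero]
    simp
  have hz : zA N f ∈ nilAlg (δA N f) := ⟨2, by
    rw [Function.iterate_succ_apply, Function.iterate_one, δA_z, hpow]⟩
  have hy : yA N f ∈ nilAlg (δA N f) := by
    have h1 : (- 2 * Polynomial.aeval (xA N f) f ^ 2 : OpenRing N f) ∈ nilAlg (δA N f) := by
      refine ⟨1, ?_⟩
      have h2 : (- 2 * Polynomial.aeval (xA N f) f ^ 2 : OpenRing N f) =
          Polynomial.aeval (xA N f) (- 2 * f ^ 2) := by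
        rw [map_mul, map_neg, map_ofNat, map_pow]
      rw [Function.iterate_one, h2, hF]
    obtain ⟨n, hn⟩ := (nilAlg (δA N f)).mul_mem h1 hz
    refine ⟨n + 1, ?_⟩
    rw [Function.iterate_succ_apply, δA_y]
    exact hn
  have hP : ∀ p, em N f p ∈ nilAlg (δA N f) := by
    intro p
    have h1 : (⊤ : Subalgebra K (MvPolynomial (Fin 3) K)) ≤
        (nilAlg (δA N f)).comap (em N f) := by
      rw [← adjoin_range_X]
      apply Algebra.adjoin_le
      rintro _ ⟨i, rfl⟩
      fin_cases i
      · exact hy
      · exact hx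
      · exact hz
    exact h1 trivial
  intro a
  obtain ⟨n, p, h⟩ := exists_rep a
  obtain ⟨e, he⟩ := (isUnit_s (N := N) (f := f)).pow n |>.exists_right_inv
  have h1 : a = em N f p * e := by
    rw [← h, mul_assoc, he, mul_one]
  rw [h1]
  refine (nilAlg (δA N f)).mul_mem (hP p) ⟨1, ?_⟩
  rw [Function.iterate_one]
  exact deriv_inv _ he (deriv_pow_zero _ δA_s n)

/-- the double power series ring -/
abbrev SS (K : Type u) [Field K] : Type u := PowerSeries (PowerSeries K)

theorem cc_aeval (x : SS K) (g : Polynomial K) :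
    PowerSeries.constantCoeff (Polynomial.aeval x g) =
      Polynomial.aeval (PowerSeries.constantCoeff x) g := by
  rw [Polynomial.aeval_def, Polynomial.hom_eval₂, Polynomial.aeval_def]
  congr 1

theorem cc_aeval' (x : PowerSeries K) (g : Polynomial K) :
    PowerSeries.constantCoeff (Polynomial.aeval x g) =
      Polynomial.aeval (PowerSeries.constantCoeff x) g := by
  rw [Polynomial.aeval_def, Polynomial.hom_eval₂, Polynomial.aeval_def]
  congr 1

/-- the formal neighbourhood of the line `x = 1`, `z = 0` -/
def σA (N : ℕ) (f : Polynomial K) : OpenRing N f →ₐ[K] SS K :=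
  pt 0 (1 + PowerSeries.X) (PowerSeries.C PowerSeries.X)
    (by
      rw [PowerSeries.isUnit_iff_constantCoeff]
      simp)
    (by
      rw [PowerSeries.isUnit_iff_constantCoeff, PowerSeries.isUnit_iff_constantCoeff]
      simp)

/-- evaluation at a point -/
def evA (N : ℕ) (f : Polynomial K) : OpenRing N f →ₐ[K] K :=
  ({ toRingHom := (PowerSeries.constantCoeff (R := K)).comp
        (PowerSeries.constantCoeff (R := PowerSeries K))
     commutes' := fun r => by
      change PowerSeries.constantCoeff (PowerSeries.constantCoeff (algebraMap K (SS K) r)) = r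
      simp [PowerSeries.algebraMap_apply] } : SS K →ₐ[K] K).comp (σA N f)

theorem evA_apply (a : OpenRing N f) : evA N f a =
    PowerSeries.constantCoeff (PowerSeries.constantCoeff (σA N f a)) := rfl

theorem typeB_key [CharZero K] (hN : N ≠ 0) (hf : Polynomial.eval 1 f ≠ 0)
    (D : Derivation K (Polynomial (OpenRing N f)) (Polynomial (OpenRing N f))) (hD : IsLND D)
    (n : ℕ) : evA N f ((D (Polynomial.C (yA N f))).coeff n) = 0 ∧
      evA N f ((D (Polynomial.C (zA N f))).coeff n) = 0 := by
  have hdx : D (Polynomial.C (xA N f)) = 0 := lnd_unit D hD (isUnit_xA.map _)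
  have hdh : D (Polynomial.C (hA N f)) = 0 := lnd_unit D hD (isUnit_hA.map _)
  have hdF : D (Polynomial.C (Polynomial.aeval (xA N f) f)) = 0 := by
    have h1 : (Polynomial.C (Polynomial.aeval (xA N f) f) : Polynomial (OpenRing N f)) =
        Polynomial.aeval (Polynomial.C (xA N f)) f :=
      (Polynomial.aeval_algHom_apply ((Polynomial.CAlgHom : OpenRing N f →ₐ[OpenRing N f]
        Polynomial (OpenRing N f)).restrictScalars K) _ _).symm
    rw [h1, Derivation.map_aeval, hdx, smul_zero]
  have hpow : D (Polynomial.C (xA N f ^ N - 1)) = 0 := by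
    rw [Polynomial.C_sub, Polynomial.C_pow, Polynomial.C_1, map_sub, Derivation.leibniz_pow, hdx,
      Derivation.map_one_eq_zero]
    simp
  have h1 : Polynomial.C (xA N f ^ N - 1) * D (Polynomial.C (yA N f)) +
      Polynomial.C (2 * Polynomial.aeval (xA N f) f ^ 2 * zA N f) *
        D (Polynomial.C (zA N f)) = 0 := by
    have h2 := hdh
    rw [hA_eq, Polynomial.C_add, Polynomial.C_add, Polynomial.C_1, Polynomial.C_mul,
      Polynomial.C_pow, Polynomial.C_mul, map_add, map_add,
      Derivation.map_one_eq_zero, Derivation.leibniz, hpow, Derivation.leibniz_pow,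
      Derivation.leibniz, hdF] at h2
    simp only [smul_eq_mul, nsmul_eq_mul] at h2
    rw [← h2]
    simp only [Polynomial.C_mul, Polynomial.C_pow, Polynomial.C_ofNat]
    push_cast
    ring
  have h2 := congrArg (fun G : Polynomial (OpenRing N f) => G.coeff n) h1
  rw [Polynomial.coeff_add, Polynomial.coeff_C_mul, Polynomial.coeff_C_mul,
    Polynomial.coeff_zero] at h2
  replace h2 := congrArg (σA N f) h2
  rw [map_add, map_mul, map_mul, map_mul, map_mul, map_sub, map_pow, map_pow, map_one, map_zero,
    map_ofNat] at h2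
  set P := σA N f ((D (Polynomial.C (yA N f))).coeff n) with hP
  set Q := σA N f ((D (Polynomial.C (zA N f))).coeff n) with hQ
  have hx : σA N f (xA N f) = 1 + PowerSeries.X := pt_x _ _ _ _ _
  have hz : σA N f (zA N f) = PowerSeries.C PowerSeries.X := pt_z _ _ _ _ _
  rw [← Polynomial.aeval_algHom_apply, hx, hz] at h2
  have hgeom : ((1 + PowerSeries.X : SS K)) ^ N - 1 =
      PowerSeries.X * (∑ i ∈ Finset.range N, (1 + PowerSeries.X : SS K) ^ i) := by
    have := geom_sum_mul (1 + PowerSeries.X : SS K) N
    rw [← this]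
    ring
  rw [hgeom] at h2
  have hccg : PowerSeries.constantCoeff (∑ i ∈ Finset.range N, (1 + PowerSeries.X : SS K) ^ i) =
      (N : PowerSeries K) := by
    rw [map_sum]
    simp
  have hccF : PowerSeries.constantCoeff (Polynomial.aeval (1 + PowerSeries.X : SS K) f) =
      PowerSeries.C (Polynomial.eval 1 f) := by
    rw [cc_aeval, map_add, map_one, PowerSeries.constantCoeff_X, add_zero]
    have : (Polynomial.aeval (1 : PowerSeries K) f) =
      algebraMap K (PowerSeries K) (Polynomial.aeval (1 : K) f) := by
      rw [← Polynomial.aeval_algebraMap_apply, map_one]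
    rw [this]
    rfl
  have h20 : (2 : PowerSeries K) ≠ 0 := by
    have : ((2 : ℕ) : PowerSeries K) ≠ 0 := by
      have hcz : CharZero (PowerSeries K) :=
        charZero_of_injective_algebraMap (algebraMap K (PowerSeries K)).injective
      exact Nat.cast_ne_zero.2 two_ne_zero
    exact_mod_cast this
  have hC0 : (PowerSeries.C (Polynomial.eval 1 f) : PowerSeries K) ≠ 0 := by
    intro h
    exact hf (PowerSeries.C_injective (h.trans (map_zero _).symm))
  -- the constant term
  have h3 := congrArg PowerSeries.constantCoeff h2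
  rw [map_add, map_mul, map_mul, PowerSeries.constantCoeff_X, zero_mul, zero_mul, zero_add,
    map_mul, map_mul, map_mul, map_ofNat, map_pow, hccF, PowerSeries.constantCoeff_C, map_zero] at h3
  have hQ0 : PowerSeries.constantCoeff Q = 0 := by
    rcases mul_eq_zero.1 h3 with h | h
    · exfalso
      exact mul_ne_zero (mul_ne_zero h20 (pow_ne_zero 2 hC0)) PowerSeries.X_ne_zero h
    · exact h
  obtain ⟨Q', hQ'⟩ := PowerSeries.X_dvd_iff.2 hQ0
  rw [hQ'] at h2
  have h4 : (∑ i ∈ Finset.range N, (1 + PowerSeries.X : SS K) ^ i) * P +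
      2 * Polynomial.aeval (1 + PowerSeries.X : SS K) f ^ 2 * PowerSeries.C PowerSeries.X * Q' =
        0 := by
    apply mul_left_cancel₀ (PowerSeries.X_ne_zero : (PowerSeries.X : SS K) ≠ 0)
    rw [mul_zero, ← h2]
    ring
  have h5 := congrArg (fun G => PowerSeries.constantCoeff (PowerSeries.constantCoeff G)) h4
  simp only [map_add, map_mul, hccg, PowerSeries.constantCoeff_C, PowerSeries.constantCoeff_X,
    mul_zero, zero_mul, add_zero, map_natCast, map_zero] at h5
  refine ⟨?_, ?_⟩
  · rw [evA_apply]
    exact (mul_eq_zero.1 h5).resolve_left (Nat.cast_ne_zero.2 hN)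
  · rw [evA_apply, ← hQ, hQ0, map_zero]

theorem typeB_hev [CharZero K] (hN : N ≠ 0) (hf : Polynomial.eval 1 f ≠ 0)
    (D : Derivation K (Polynomial (OpenRing N f)) (Polynomial (OpenRing N f))) (hD : IsLND D)
    (a : OpenRing N f) : Polynomial.mapAlgHom (evA N f) (D (Polynomial.C a)) = 0 := by
  have hdx : D (Polynomial.C (xA N f)) = 0 := lnd_unit D hD (isUnit_xA.map _)
  -- the subalgebra of all elements with this property
  let T : Subalgebra K (OpenRing N f) :=
    { carrier := {a | Polynomial.mapAlgHom (evA N f) (D (Polynomial.C a)) = 0}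
      mul_mem' := by
        intro a b ha hb
        change Polynomial.mapAlgHom (evA N f) (D (Polynomial.C (a * b))) = 0
        rw [Polynomial.C_mul, Derivation.leibniz, smul_eq_mul, smul_eq_mul, map_add, map_mul,
          map_mul]
        change Polynomial.mapAlgHom (evA N f) (D (Polynomial.C a)) = 0 at ha
        change Polynomial.mapAlgHom (evA N f) (D (Polynomial.C b)) = 0 at hb
        rw [ha, hb, mul_zero, mul_zero, add_zero]
      add_mem' := by
        intro a b ha hb
        change Polynomial.mapAlgHom (evA N f) (D (Polynomial.C (a + b))) = 0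
        change Polynomial.mapAlgHom (evA N f) (D (Polynomial.C a)) = 0 at ha
        change Polynomial.mapAlgHom (evA N f) (D (Polynomial.C b)) = 0 at hb
        rw [Polynomial.C_add, map_add, map_add, ha, hb, add_zero]
      algebraMap_mem' := by
        intro r
        change Polynomial.mapAlgHom (evA N f) (D (Polynomial.C (algebraMap K _ r))) = 0
        have : (Polynomial.C (algebraMap K (OpenRing N f) r) : Polynomial (OpenRing N f)) =
          algebraMap K _ r := rfl
        rw [this, Derivation.map_algebraMap, map_zero] }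
  have hy : yA N f ∈ T := by
    change Polynomial.mapAlgHom (evA N f) (D (Polynomial.C (yA N f))) = 0
    ext n
    rw [Polynomial.coe_mapAlgHom, Polynomial.coeff_map, Polynomial.coeff_zero]
    exact (typeB_key hN hf D hD n).1
  have hz : zA N f ∈ T := by
    change Polynomial.mapAlgHom (evA N f) (D (Polynomial.C (zA N f))) = 0
    ext n
    rw [Polynomial.coe_mapAlgHom, Polynomial.coeff_map, Polynomial.coeff_zero]
    exact (typeB_key hN hf D hD n).2
  have hx : xA N f ∈ T := by
    change Polynomial.mapAlgHom (evA N f) (D (Polynomial.C (xA N f))) = 0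
    rw [hdx, map_zero]
  have hP : ∀ p, em N f p ∈ T := by
    intro p
    have h1 : (⊤ : Subalgebra K (MvPolynomial (Fin 3) K)) ≤ T.comap (em N f) := by
      rw [← adjoin_range_X]
      apply Algebra.adjoin_le
      rintro _ ⟨i, rfl⟩
      fin_cases i
      · exact hy
      · exact hx
      · exact hz
    exact h1 trivial
  obtain ⟨n, p, h⟩ := exists_rep a
  obtain ⟨e, he⟩ := (isUnit_s (N := N) (f := f)).pow n |>.exists_right_inv
  have h1 : a = em N f p * e := by
    rw [← h, mul_assoc, he, mul_one]
  have he' : e ∈ T := by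
    change Polynomial.mapAlgHom (evA N f) (D (Polynomial.C e)) = 0
    rw [lnd_unit D hD (IsUnit.map _ (IsUnit.of_mul_eq_one (em N f (X 1 * hh N f) ^ n) (by
      rw [mul_comm]; exact he))), map_zero]
  have h2 := T.mul_mem (hP p) he'
  rw [← h1] at h2
  exact h2

/-- **The open subsets are of type B.** -/
theorem isTypeB [CharZero K] (hN : N ≠ 0) (hf : Polynomial.eval 1 f ≠ 0) :
    IsTypeB K (OpenRing N f) :=
  typeB_of (evA N f) (fun D hD _ a => typeB_hev hN hf D hD a) (δA N f) δA_lnd (δA_ne_zero hN)

end

end Pool.Agent.KS6_5.TB
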