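import Pool.Agent.KS6_5.TB.TypeB

/-!
# Open subsets of the affine space of dimension three: the units
-/

set_option autoImplicit false

namespace Pool.Agent.KS6_5.TB

open MvPolynomial Pool.Agent.H868R3

universe u v

variable {K : Type u} [Field K] {N : ℕ} {f : Polynomial K}

noncomputable section

/-- a linear polynomial with coprime coefficients is irreducible -/
theorem irreducible_linear {R : Type u} [CommRing R] [IsDomain R] {a b : R} (ha : a ≠ 0)
    (h : ∀ c, c ∣ a → c ∣ b → IsUnit c) :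
    Irreducible (Polynomial.C a * Polynomial.X + Polynomial.C b) := by
  set L : Polynomial R := Polynomial.C a * Polynomial.X + Polynomial.C b with hL
  have hdeg : L.natDegree = 1 := Polynomial.natDegree_linear ha
  have h1 : L.coeff 1 = a := by simp [hL]
  have h0 : L.coeff 0 = b := by simp [hL]
  have key : ∀ P Q : Polynomial R, L = P * Q → P.natDegree = 0 → IsUnit P := by
    intro P Q hPQ hP
    rw [Polynomial.eq_C_of_natDegree_eq_zero hP] at hPQ ⊢
    refine Polynomial.isUnit_C.2 (h _ ?_ ?_)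
    · rw [← h1, hPQ, Polynomial.coeff_C_mul]
      exact dvd_mul_right _ _
    · rw [← h0, hPQ, Polynomial.coeff_C_mul]
      exact dvd_mul_right _ _
  refine ⟨fun hu => ?_, fun P Q hPQ => ?_⟩
  · have := Polynomial.natDegree_eq_zero_of_isUnit hu
    omega
  · have hL0 : L ≠ 0 := by
      intro h0'
      rw [h0'] at hdeg
      simp at hdeg
    have hP0 : P ≠ 0 := by
      rintro rfl
      rw [zero_mul] at hPQ
      exact hL0 hPQ
    have hQ0 : Q ≠ 0 := by
      rintro rfl
      rw [mul_zero] at hPQ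
      exact hL0 hPQ
    have h2 := Polynomial.natDegree_mul hP0 hQ0
    rw [← hPQ, hdeg] at h2
    rcases Nat.eq_zero_or_pos P.natDegree with h3 | h3
    · exact Or.inl (key P Q hPQ h3)
    · exact Or.inr (key Q P (by rw [mul_comm]; exact hPQ) (by omega))

/-- the coefficients of `h` are coprime -/
theorem coprime_coeff (hN : N ≠ 0) (c : MvPolynomial (Fin 2) K) (h1 : c ∣ X 0 ^ N - 1)
    (h2 : c ∣ 1 + (Polynomial.aeval (X 0) f * X 1) ^ 2) : IsUnit c := by
  obtain ⟨e, e0, e1⟩ : ∃ e : MvPolynomial (Fin 2) K ≃ₐ[K] Polynomial (MvPolynomial (Fin 1) K),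
      e (X 0) = Polynomial.C (X 0) ∧ e (X 1) = Polynomial.X := by
    refine ⟨(renameEquiv K (Equiv.swap 0 1)).trans (finSuccEquiv K 1), ?_, ?_⟩
    · rw [AlgEquiv.trans_apply, renameEquiv_apply, rename_X, Equiv.swap_apply_left]
      exact finSuccEquiv_X_succ (j := 0)
    · rw [AlgEquiv.trans_apply, renameEquiv_apply, rename_X, Equiv.swap_apply_right]
      exact finSuccEquiv_X_zero
  have h1' : e c ∣ Polynomial.C (X 0 ^ N - 1) := by
    have := map_dvd e h1
    rwa [map_sub, map_pow, map_one, e0, ← Polynomial.C_pow, ← Polynomial.C_1,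
      ← Polynomial.C_sub] at this
  have h2' : e c ∣ 1 + (Polynomial.aeval (Polynomial.C (X 0)) f * Polynomial.X) ^ 2 := by
    have h3 := map_dvd e h2
    have h4 : e (Polynomial.aeval (X 0) f) = Polynomial.aeval (Polynomial.C (X 0)) f := by
      rw [← e0]
      exact (Polynomial.aeval_algHom_apply e.toAlgHom (X 0) f).symm
    rwa [map_add, map_one, map_pow, map_mul, h4, e1] at h3
  have hne : (X 0 ^ N - 1 : MvPolynomial (Fin 1) K) ≠ 0 := by
    intro h
    have h3 := congrArg (aeval (![0] : Fin 1 → K)) h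
    rw [map_sub, map_pow, aeval_X, map_one, map_zero] at h3
    simp [hN] at h3
  have hdeg : (e c).natDegree = 0 := by
    have := Polynomial.natDegree_le_of_dvd h1' (Polynomial.C_ne_zero.2 hne)
    rw [Polynomial.natDegree_C] at this
    omega
  rw [Polynomial.eq_C_of_natDegree_eq_zero hdeg] at h2'
  have h3 : (e c).coeff 0 ∣ 1 := by
    have h4 := (Polynomial.C_dvd_iff_dvd_coeff _ _).1 h2' 0
    have h5 : (1 + (Polynomial.aeval (Polynomial.C (X 0)) f * Polynomial.X) ^ 2 :
        Polynomial (MvPolynomial (Fin 1) K)).coeff 0 = 1 := by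
      rw [Polynomial.coeff_zero_eq_eval_zero]
      simp
    rwa [h5] at h4
  have h4 : IsUnit (e c) := by
    rw [Polynomial.eq_C_of_natDegree_eq_zero hdeg]
    exact Polynomial.isUnit_C.2 (isUnit_of_dvd_one h3)
  exact (MulEquiv.isUnit_map e).1 h4

/-- `h` is a prime element -/
theorem prime_hh (hN : N ≠ 0) : Prime (hh N f) := by
  rw [← irreducible_iff_prime]
  let e : MvPolynomial (Fin 3) K ≃ₐ[K] Polynomial (MvPolynomial (Fin 2) K) := finSuccEquiv K 2
  have e0 : e (X 0) = Polynomial.X := finSuccEquiv_X_zero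
  have e1 : e (X 1) = Polynomial.C (X 0) := finSuccEquiv_X_succ (j := 0)
  have e2 : e (X 2) = Polynomial.C (X 1) := finSuccEquiv_X_succ (j := 1)
  have eh : e (hh N f) = Polynomial.C (X 0 ^ N - 1) * Polynomial.X +
      Polynomial.C (1 + (Polynomial.aeval (X 0) f * X 1) ^ 2) := by
    have h1 : e (hh N f) = 1 + (e (X 1) ^ N - 1) * e (X 0) +
        (Polynomial.aeval (e (X 1)) f * e (X 2)) ^ 2 := map_hh (N := N) (f := f) e.toAlgHom
    rw [h1, e0, e1, e2]
    have h2 : (Polynomial.aeval (Polynomial.C (X 0) : Polynomial (MvPolynomial (Fin 2) K)) f) =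
        Polynomial.C (Polynomial.aeval (X 0) f) :=
      Polynomial.aeval_algHom_apply ((Polynomial.CAlgHom : MvPolynomial (Fin 2) K
        →ₐ[MvPolynomial (Fin 2) K] _).restrictScalars K) _ _
    rw [h2]
    simp only [Polynomial.C_add, Polynomial.C_sub, Polynomial.C_pow, Polynomial.C_mul,
      Polynomial.C_1]
    ring
  have hne : (X 0 ^ N - 1 : MvPolynomial (Fin 2) K) ≠ 0 := by
    intro h
    have h3 := congrArg (aeval (![0, 0] : Fin 2 → K)) h
    rw [map_sub, map_pow, aeval_X, map_one, map_zero] at h3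
    simp [hN] at h3
  rw [← MulEquiv.irreducible_iff e, eh]
  exact irreducible_linear hne (fun c h1 h2 => coprime_coeff hN c h1 h2)

/-- the unit `x` -/
def xU (N : ℕ) (f : Polynomial K) : (OpenRing N f)ˣ := isUnit_xA.unit
/-- the unit `h` -/
def hU (N : ℕ) (f : Polynomial K) : (OpenRing N f)ˣ := isUnit_hA.unit
/-- constants -/
def cU (N : ℕ) (f : Polynomial K) : Kˣ →* (OpenRing N f)ˣ :=
  Units.map (algebraMap K (OpenRing N f)).toMonoidHom

@[simp] theorem xU_val : ((xU N f : (OpenRing N f)ˣ) : OpenRing N f) = xA N f := rfl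
@[simp] theorem hU_val : ((hU N f : (OpenRing N f)ˣ) : OpenRing N f) = hA N f := rfl
@[simp] theorem cU_val (c : Kˣ) : ((cU N f c : (OpenRing N f)ˣ) : OpenRing N f) =
    algebraMap K _ (c : K) := rfl

theorem comm_cancel {G : Type v} [CommGroup G] (c x x' h h' : G) :
    c * (x * x'⁻¹) * (h * h'⁻¹) * (x' * h') = c * x * h := by
  calc c * (x * x'⁻¹) * (h * h'⁻¹) * (x' * h') = (c * x * h) * (x'⁻¹ * x') * (h'⁻¹ * h') := by
        ac_rfl
    _ = c * x * h := by simp

/-- **The units** are the monomials in `x` and `h`. -/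
theorem units_eq (hN : N ≠ 0) (u : (OpenRing N f)ˣ) :
    ∃ (c : Kˣ) (i j : ℤ), u = cU N f c * xU N f ^ i * hU N f ^ j := by
  obtain ⟨n, p, hp⟩ := exists_rep (u : OpenRing N f)
  obtain ⟨m, q, hq⟩ := exists_rep ((u⁻¹ : (OpenRing N f)ˣ) : OpenRing N f)
  have h1 : p * q = (X 1 * hh N f) ^ (n + m) := by
    apply em_injective
    rw [map_mul, ← hp, ← hq, map_pow, pow_add]
    have : (u : OpenRing N f) * ((u⁻¹ : (OpenRing N f)ˣ) : OpenRing N f) = 1 := u.mul_inv
    linear_combination (em N f (X 1 * hh N f)) ^ n * (em N f (X 1 * hh N f)) ^ m * this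
  have h2 : p ∣ X 1 ^ (n + m) * hh N f ^ (n + m) := by
    rw [← mul_pow, ← h1]
    exact dvd_mul_right _ _
  obtain ⟨p1, p2, hp1, hp2, rfl⟩ := exists_dvd_and_dvd_of_dvd_mul h2
  obtain ⟨i, -, hi⟩ := (dvd_prime_pow (X_prime (R := K) (i := (1 : Fin 3))) _).1 hp1
  obtain ⟨j, -, hj⟩ := (dvd_prime_pow (prime_hh (f := f) hN) _).1 hp2
  obtain ⟨a, ha⟩ := hi.symm
  obtain ⟨b, hb⟩ := hj.symm
  obtain ⟨c, hc, hc'⟩ := MvPolynomial.isUnit_iff_eq_C_of_isReduced.1 (a * b).isUnit
  refine ⟨hc.unit, i - n, j - n, ?_⟩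
  apply Units.ext
  have h3 : em N f (p1 * p2) = algebraMap K _ c * xA N f ^ i * hA N f ^ j := by
    rw [← ha, ← hb]
    have : (X 1 ^ i * (a : MvPolynomial (Fin 3) K)) * (hh N f ^ j * (b : MvPolynomial (Fin 3) K)) =
      C c * X 1 ^ i * hh N f ^ j := by
      rw [← hc', Units.val_mul]
      ring
    rw [this, map_mul, map_mul, map_pow, map_pow]
    rfl
  have h4 : (u : OpenRing N f) * (xA N f ^ n * hA N f ^ n) =
      algebraMap K _ c * xA N f ^ i * hA N f ^ j := by
    rw [← h3, ← hp, map_mul, mul_pow]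
    rfl
  have h5 : ((cU N f hc.unit * xU N f ^ ((i : ℤ) - n) * hU N f ^ ((j : ℤ) - n) :
      (OpenRing N f)ˣ) : OpenRing N f) * (xA N f ^ n * hA N f ^ n) =
      algebraMap K _ c * xA N f ^ i * hA N f ^ j := by
    have : (cU N f hc.unit * xU N f ^ ((i : ℤ) - n) * hU N f ^ ((j : ℤ) - n)) *
        (xU N f ^ n * hU N f ^ n) = cU N f hc.unit * xU N f ^ i * hU N f ^ j := by
      rw [zpow_sub, zpow_sub, zpow_natCast, zpow_natCast, zpow_natCast, zpow_natCast]
      exact comm_cancel _ _ _ _ _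
    have h6 := congrArg (fun v : (OpenRing N f)ˣ => (v : OpenRing N f)) this
    simp only [Units.val_mul, Units.val_pow_eq_pow_val, xU_val, hU_val, cU_val] at h6
    simp only [Units.val_mul]
    exact h6
  have h6 : xA N f ^ n * hA N f ^ n ≠ 0 :=
    mul_ne_zero (pow_ne_zero _ isUnit_xA.ne_zero) (pow_ne_zero _ isUnit_hA.ne_zero)
  exact mul_right_cancel₀ h6 (h4.trans h5.symm)

end

end Pool.Agent.KS6_5.TB
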