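import Pool.Agent.KS6_5.TB.Iso

/-!
# Open subsets of the affine space of dimension three: invariants
-/

set_option autoImplicit false

namespace Pool.Agent.KS6_5.TB

open MvPolynomial Pool.Agent.H868R3

universe u v

variable {K : Type u} [Field K] {N : ℕ} {f g : Polynomial K}

noncomputable section

theorem negS_ρ_unit [CharZero K] (hN : N ≠ 0) (ζ : Kˣ) {e : OpenRing N f} (he : IsUnit e) :
    negS K (ρA N f ζ e) = ρA N f ζ e := by
  rw [← ρ_ι, ιA_unit hN he]

theorem exists_factor {α : Kˣ} {p : ℤ} (hα : α ^ N = 1) (hp : p = 1 ∨ p = -1)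
    (e : (OpenRing N f)ˣ) : ∃ c : (OpenRing N f)ˣ,
      (e : OpenRing N f) * (((mon N f α p 0 : (OpenRing N f)ˣ) : OpenRing N f) ^ N - 1) =
        c * (xA N f ^ N - 1) := by
  rcases hp with rfl | rfl
  · refine ⟨e, ?_⟩
    have h1 : (mon N f α 1 0) ^ N = xU N f ^ N := by
      rw [mon, zpow_one, zpow_zero, mul_one, mul_pow, ← map_pow, hα, map_one, one_mul]
    have h2 := congrArg (fun v : (OpenRing N f)ˣ => (v : OpenRing N f)) h1
    simp only [Units.val_pow_eq_pow_val, xU_val] at h2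
    rw [h2]
  · refine ⟨- (e * (xU N f ^ N)⁻¹), ?_⟩
    have h1 : (mon N f α (-1) 0) ^ N = (xU N f ^ N)⁻¹ := by
      rw [mon, zpow_neg, zpow_one, zpow_zero, mul_one, mul_pow, ← map_pow, hα, map_one, one_mul,
        inv_pow]
    have h2 := congrArg (fun v : (OpenRing N f)ˣ => (v : OpenRing N f)) h1
    simp only [Units.val_pow_eq_pow_val] at h2
    rw [h2, Units.val_neg, Units.val_mul]
    have h3 : (((xU N f ^ N)⁻¹ : (OpenRing N f)ˣ) : OpenRing N f) * xA N f ^ N = 1 := by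
      have := (xU N f ^ N).inv_mul
      rwa [Units.val_pow_eq_pow_val, xU_val] at this
    linear_combination (e : OpenRing N f) * h3

/-- **The invariants.** -/
theorem values [CharZero K] (hN : N ≠ 0) (hf : IsCoprime f (Polynomial.X ^ N - 1))
    (hg : IsCoprime g (Polynomial.X ^ N - 1)) (φ : OpenRing N g ≃ₐ[K] OpenRing N f) :
    ∃ (α γ : Kˣ) (p m : ℤ), α ^ N = 1 ∧ (p = 1 ∨ p = -1) ∧ ∀ ζ : Kˣ, ζ ^ N = 1 →
      Polynomial.eval (ζ : K) f ^ 2 = ((γ * ζ ^ m : Kˣ) : K) ^ 2 *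
        Polynomial.eval ((α * ζ ^ p : Kˣ) : K) g ^ 2 := by
  obtain ⟨e, he⟩ := conj_deriv hN hf hg φ
  obtain ⟨α, β, p, k, l, hα, hp, hl, hx, hh'⟩ := signs φ hN hf hg
  obtain ⟨c, hc⟩ := exists_factor (f := f) hα hp e
  obtain ⟨γ, m, n, hγ⟩ := exists_mon hN c
  have hcz : CharZero (PowerSeries K) :=
    charZero_of_injective_algebraMap (algebraMap K (PowerSeries K)).injective
  have hux : φ (xA N g) = ((mon N f α p 0 : (OpenRing N f)ˣ) : OpenRing N f) := by
    rw [← hx]; rfl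
  have huh : φ (hA N g) = ((mon N f β k l : (OpenRing N f)ˣ) : OpenRing N f) := by
    rw [← hh']; rfl
  have hd0 : δA N f (φ (zA N g) - c * zA N f) = 0 := by
    rw [map_sub, Derivation.leibniz, δA_unit c.isUnit, δA_z, he, δA_z, map_sub, map_pow, map_one,
      hux, hc]
    simp
  have hd1 := ker_fixed hN hd0
  refine ⟨α, γ, p, m, hα, hp, fun ζ hζ => ?_⟩
  set s : K := Polynomial.eval ((α * ζ ^ p : Kˣ) : K) g with hs
  set t : K := Polynomial.eval (ζ : K) f with ht
  have hαζ : (α * ζ ^ p) ^ N = 1 := by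
    rw [mul_pow, hα, one_mul, ← zpow_natCast, ← zpow_mul, mul_comm, zpow_mul, zpow_natCast, hζ,
      one_zpow]
  have hs0 : s ≠ 0 := eval_one_ne hg (by
    have := congrArg (fun v : Kˣ => (v : K)) hαζ
    simpa only [Units.val_pow_eq_pow_val, Units.val_one] using this)
  have ht0 : t ≠ 0 := eval_one_ne hf (by
    have := congrArg (fun v : Kˣ => (v : K)) hζ
    simpa only [Units.val_pow_eq_pow_val, Units.val_one] using this)
  set D := ρA N f ζ (φ (zA N g) - c * zA N f) with hD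
  set R := ρA N f ζ (c : OpenRing N f) with hR
  have hDneg : negS K D = D := by rw [hD, ← ρ_ι, hd1]
  have hRneg : negS K R = R := negS_ρ_unit hN ζ c.isUnit
  have hW : ρA N f ζ (φ (zA N g)) = R * PowerSeries.X + D := by
    rw [hD, map_sub, map_mul, ρ_z]
    ring
  have hρx : ρA N f ζ (φ (xA N g)) = PowerSeries.C ((α * ζ ^ p : Kˣ) : K) := by
    rw [hux, ρ_mon, zpow_zero, Units.val_one, mul_one]
  have hH : ρA N f ζ (φ (hA N g)) = 1 + (PowerSeries.C s * (R * PowerSeries.X + D)) ^ 2 := by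
    have h1 := congrArg (fun a => ρA N f ζ (φ a)) (hA_eq (N := N) (f := g))
    simp only [map_add, map_mul, map_pow, map_sub, map_one] at h1
    rw [h1, hW, hρx, ← Polynomial.aeval_algHom_apply, ← Polynomial.aeval_algHom_apply]
    have h2 : (PowerSeries.C ((α * ζ ^ p : Kˣ) : K) : PowerSeries K) ^ N = 1 := by
      rw [← map_pow, ← Units.val_pow_eq_pow_val, hαζ, Units.val_one, map_one]
    have h3 : Polynomial.aeval (ρA N f ζ (φ (xA N g))) g = PowerSeries.C s := by
      rw [hρx]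
      have h4 : (PowerSeries.C ((α * ζ ^ p : Kˣ) : K) : PowerSeries K) =
        algebraMap K (PowerSeries K) ((α * ζ ^ p : Kˣ) : K) := rfl
      rw [h4, Polynomial.aeval_algebraMap_apply]
      rfl
    have h4 : Polynomial.aeval ((ρA N f ζ) (φ (xA N g))) g = PowerSeries.C s := h3
    rw [h2, sub_self, zero_mul, add_zero, mul_pow, mul_pow]
    congr 2
    exact congrArg (fun a => a ^ 2) h4
  have hCs : negS K (PowerSeries.C s) = PowerSeries.C s := (negS K).commutes s
  have hCs0 : (PowerSeries.C s : PowerSeries K) ≠ 0 := by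
    intro h
    exact hs0 (PowerSeries.C_injective (h.trans (map_zero _).symm))
  have hR0 : R ≠ 0 := (c.isUnit.map (ρA N f ζ)).ne_zero
  have hHneg : negS K (ρA N f ζ (φ (hA N g))) = ρA N f ζ (φ (hA N g)) :=
    negS_ρ_unit hN ζ (isUnit_hA.map φ)
  have hD0 : D = 0 := by
    rw [hH, map_add, map_one, map_pow, map_mul, map_add, map_mul, hCs, hRneg, hDneg, negS_X]
      at hHneg
    have h1 : (4 * PowerSeries.C s ^ 2 * R * PowerSeries.X : PowerSeries K) * D = 0 := by
      linear_combination - hHneg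
    refine (mul_eq_zero.1 h1).resolve_left ?_
    exact mul_ne_zero (mul_ne_zero (mul_ne_zero (by norm_num) (pow_ne_zero 2 hCs0)) hR0)
      PowerSeries.X_ne_zero
  -- comparison
  have hmain : PowerSeries.C ((β * ζ ^ k : Kˣ) : K) *
      ((HU N f ζ ^ l : (PowerSeries K)ˣ) : PowerSeries K) =
      1 + PowerSeries.X ^ 2 * (PowerSeries.C s * R) ^ 2 := by
    rw [← ρ_mon, ← huh, hH, hD0]
    ring
  obtain ⟨B, hB1, hB2⟩ := HU_zpow (N := N) (f := f) ζ l
  have hβ : ((β * ζ ^ k : Kˣ) : K) = 1 := by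
    have h1 := congrArg PowerSeries.constantCoeff hmain
    rw [hB1] at h1
    simpa using h1
  have hB : B = (PowerSeries.C s * R) ^ 2 := by
    rw [hβ, map_one, one_mul, hB1] at hmain
    have h1 : (PowerSeries.X ^ 2 * (B - (PowerSeries.C s * R) ^ 2) : PowerSeries K) = 0 := by
      linear_combination hmain
    exact sub_eq_zero.1 ((mul_eq_zero.1 h1).resolve_left (pow_ne_zero _ PowerSeries.X_ne_zero))
  have hRc : R = PowerSeries.C ((γ * ζ ^ m : Kˣ) : K) *
      ((HU N f ζ ^ n : (PowerSeries K)ˣ) : PowerSeries K) := by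
    rw [hR, hγ, ρ_mon]
  have hR1 : PowerSeries.constantCoeff R = ((γ * ζ ^ m : Kˣ) : K) := by
    obtain ⟨B', hB1', -⟩ := HU_zpow (N := N) (f := f) ζ n
    rw [hRc, hB1']
    simp
  have hval : (l : K) * t ^ 2 = ((γ * ζ ^ m : Kˣ) : K) ^ 2 * s ^ 2 := by
    rw [← hB2, hB, map_pow, map_mul, hR1, PowerSeries.constantCoeff_C]
    ring
  rcases hl with rfl | rfl
  · rw [Int.cast_one, one_mul] at hval
    exact hval
  · exfalso
    set κ : K := (s * ((γ * ζ ^ m : Kˣ) : K)) ^ 2 with hκ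
    have hκ0 : κ ≠ 0 := pow_ne_zero _ (mul_ne_zero hs0 (γ * ζ ^ m).ne_zero)
    have h1 : ((HU N f ζ ^ (-1 : ℤ) : (PowerSeries K)ˣ) : PowerSeries K) =
        1 + PowerSeries.X ^ 2 * (PowerSeries.C κ *
          ((HU N f ζ ^ (2 * n) : (PowerSeries K)ˣ) : PowerSeries K)) := by
      rw [hB1, hB, hRc, hκ, mul_comm 2 n, zpow_mul, zpow_ofNat, Units.val_pow_eq_pow_val, map_pow,
        map_mul]
      ring
    have h2 : ((HU N f ζ ^ (-1 : ℤ) : (PowerSeries K)ˣ) : PowerSeries K) * (HU N f ζ) = 1 := by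
      rw [← Units.val_mul, zpow_neg_one, inv_mul_cancel, Units.val_one]
    rw [h1] at h2
    have h3 : (PowerSeries.X ^ 2 * (PowerSeries.C (t ^ 2) + PowerSeries.C κ *
        ((HU N f ζ ^ (2 * n + 1) : (PowerSeries K)ˣ) : PowerSeries K)) : PowerSeries K) = 0 := by
      rw [zpow_add_one, Units.val_mul]
      have h4 := HU_val (N := N) (f := f) ζ
      rw [← ht] at h4
      linear_combination h2 - h4
    have h4 := (mul_eq_zero.1 h3).resolve_left (pow_ne_zero _ PowerSeries.X_ne_zero)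
    obtain ⟨B', hB1', hB2'⟩ := HU_zpow (N := N) (f := f) ζ (2 * n + 1)
    rw [hB1'] at h4
    have h5 : PowerSeries.C κ * (1 + PowerSeries.X ^ 2 * B') = PowerSeries.C (- t ^ 2) := by
      rw [map_neg]
      linear_combination h4
    obtain ⟨-, h6⟩ := series_const two_pos h5 hκ0
    rw [h6, map_zero, ← ht] at hB2'
    have h7 : ((2 * n + 1 : ℤ) : K) = 0 :=
      (mul_eq_zero.1 hB2'.symm).resolve_right (pow_ne_zero 2 ht0)
    have h8 : 2 * n + 1 = 0 := by exact_mod_cast h7
    omega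

end

end Pool.Agent.KS6_5.TB
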